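import Pool.Agent.Lib.MP_b2e238_gt.Z.M1
import Pool.Agent.Lib.MP_b2e238_gt.C.Pi
import Pool.Agent.Lib.MP_b2e238_gt.B.Lev
import Pool.Agent.Lib.MP_b2e238_gt.B.Tw
import Pool.Agent.Lib.MP_b2e238_gt.K.Rot

/-! The base case: every loop in `Σ(2,3,1) = S³`, every framing. -/

open scoped ContDiff Topology
open Set Metric

noncomputable section

namespace Pool.Agent.Lib.MP_b2e238_gt

section
variable {E : Type} [NormedAddCommGroup E] [NormedSpace ℝ E] {a b : ℝ → E}

theorem rk1_seg (ca : Continuous a) (cb : Continuous b) (pa : ∀ t, a (t + 1) = a t)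
    (pb : ∀ t, b (t + 1) = b t) (h : ∀ l ∈ Icc (0 : ℝ) 1, ∀ t, (1 - l) • a t + l • b t ≠ 0) :
    Hl {0}ᶜ a b := by
  simpa using hl_mk (Y := {0}ᶜ) (H := fun l t => (1 - l) • a t + l • b t)
    (((continuous_const.sub continuous_fst).smul (ca.comp continuous_snd)).add
      (continuous_fst.smul (cb.comp continuous_snd))) fun l hl t => ⟨h l hl t, by rw [pa, pb]⟩

theorem rk1_pt (ca : Continuous a) (pa : ∀ t, a (t + 1) = a t) (h0 : ∀ t, a t ≠ 0) {p : E}
    (h : ∀ (s : ℝ) t, s • a t ≠ p) : Hl {0}ᶜ a fun _ => p := by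
  refine rk1_seg ca continuous_const pa (fun _ => rfl) fun l _ t e => ?_
  rcases eq_or_ne l 0 with rfl | k
  · exact h0 t (by simpa using e)
  · refine h (-(l⁻¹ * (1 - l))) t ?_
    rw [neg_smul, mul_smul, eq_neg_of_add_eq_zero_left e, smul_neg, neg_neg, inv_smul_smul₀ k]

/-- Loops in a punctured space of dimension at least four contract. -/
theorem rk1_null [FiniteDimensional ℝ E] (d : 3 < Module.finrank ℝ E) (h : Hl {0}ᶜ a a) {q : E}
    (hq : q ≠ 0) : Hl {0}ᶜ a fun _ => q := by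
  obtain ⟨ca, h0, pa⟩ := h.facts
  obtain ⟨g, cg, hg, -⟩ := ca.exists_contDiff_approx 1 ca.norm fun t => norm_pos_iff.2 (h0 t)
  obtain ⟨k, hk⟩ : ∃ k : ℝ → E, k = fun s => (1 - s) • g (s + 1) + s • g s := ⟨_, rfl⟩
  have ck : ContDiff ℝ 1 k := hk ▸ ((contDiff_const.sub contDiff_id).smul
    (cg.comp (contDiff_id.add contDiff_const))).add (contDiff_id.smul cg)
  have c : Continuous (k ∘ Int.fract) := ck.continuous.continuousOn.comp_fract'' (by simp [hk])
  have p : ∀ t, (k ∘ Int.fract) (t + 1) = (k ∘ Int.fract) t := fun t => by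
    simp only [Function.comp, Int.fract_add_one]
  have m : ∀ t, (k ∘ Int.fract) t ∈ ball (a t) ‖a t‖ := fun t => by
    have e : a t = a (Int.fract t) := by rw [← per_int pa (Int.fract t) ⌊t⌋, Int.fract_add_floor]
    rw [e, hk]
    exact convex_ball _ _ (pa _ ▸ hg (Int.fract t + 1)) (hg _)
      (sub_nonneg.2 (Int.fract_lt_one t).le) (Int.fract_nonneg t) (sub_add_cancel _ _)
  have n : ∀ t, ∀ x ∈ ball (a t) ‖a t‖, x ≠ 0 := fun t x hx e => by simp [e] at hx
  obtain ⟨z, hz⟩ := (ContDiff.dense_compl_range_of_finrank_lt_finrank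
    (f := fun u : ℝ × ℝ × ℝ => u.1 • k u.2.1 + u.2.2 • q)
    ((contDiff_fst.smul (ck.comp contDiff_snd.fst)).add (contDiff_snd.snd.smul contDiff_const))
    (by simpa using d)).nonempty
  refine ((rk1_seg ca c pa p fun l hl t => n t _ (convex_ball _ _
    (mem_ball_self (norm_pos_iff.2 (h0 t))) (m t) (sub_nonneg.2 hl.2) hl.1
    (sub_add_cancel _ _))).trans (rk1_pt c p (fun t => n t _ (m t)) (p := z) fun s t e => hz
      ⟨(s, Int.fract t, 0), by simpa using e⟩)).trans (rk1_pt continuous_const (fun _ => rfl)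
        (fun _ => hq) fun s _ e => hz ⟨(0, 0, s), by simpa using e⟩).symm
end

theorem rk1_pos {x : (ℝ × ℂ) × ℝ} (h : x ≠ 0) : 0 < pgQ x := by
  have h1 := sq_nonneg x.1.1
  have h2 := sq_nonneg ‖x.1.2‖
  have h3 := sq_nonneg ‖x.2‖
  by_contra k
  rw [pgQ] at k
  exact h (Prod.ext (Prod.ext (by simpa using (by linarith : x.1.1 ^ 2 = 0))
    (by simpa using (by linarith : ‖x.1.2‖ ^ 2 = 0))) (by simpa using (by linarith : ‖x.2‖ ^ 2 = 0)))

/-- `S³` is simply connected. -/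
theorem rk1_S3 {γ : ℝ → (ℝ × ℂ) × ℝ} (h : Hl (Sph ℝ) γ γ) : Hl (Sph ℝ) γ fun _ => (0, 1) := by
  obtain ⟨c, m, p⟩ := h.facts
  have k := (rk1_null (q := (0, 1)) (by simp) (Hl.refl c (fun t e => by
    have := m t
    rw [show γ t = 0 from e] at this
    simp [Sph] at this) p) (by simp)).map (f := nrm) (Y' := Sph ℝ)
    (fun x hx => (contDiffAt_nrm sqR (rk1_pos hx)).continuousAt.continuousWithinAt)
    fun x hx => nrm_mem (rk1_pos hx)
  have e1 : nrm ∘ γ = γ := funext fun t => nrm_self (m t)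
  have e2 : (nrm ∘ fun _ : ℝ => ((0, 1) : (ℝ × ℂ) × ℝ)) = fun _ => (0, 1) :=
    funext fun _ => nrm_self (by simp [Sph])
  rwa [e1, e2] at k

theorem rk1_hl {Y : Set C3} {Φ : (ℝ × ℂ) × ℝ → C3} {Ψ : C3 → (ℝ × ℂ) × ℝ} (d : Dif (Sph ℝ) Y Φ Ψ)
    {γ : ℝ → C3} (h : Hl Y γ γ) : Hl Y γ fun _ => Φ (0, 1) := by
  have k := (rk1_S3 (h.map d.cG.continuousOn d.mG)).map d.cF.continuousOn d.mF
  have e : Φ ∘ Ψ ∘ γ = γ := funext fun t => d.fg _ (h.facts.2.1 t)
  rwa [e] at k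

theorem rk1_two (k m : ℤ) :
    Hl (Inj E3) (fun t => mu (ex (k * t))) fun t => mu (ex ((k + 2 * m : ℤ) * t)) := by
  have s : ∀ j : ℤ, Hl (Inj E3) (fun t => mu (ex ((j + 2 : ℤ) * t))) fun t => mu (ex (j * t)) :=
    fun j => by simpa only [Int.cast_add, Int.cast_ofNat] using hl_two j
  induction m using Int.induction_on with
  | zero => simpa only [mul_zero, add_zero] using (s k).symm.trans (s k)
  | succ m ih => exact ih.trans (by rw [mul_add, ← add_assoc, mul_one]; exact (s _).symm)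
  | pred m ih =>
    refine ih.trans ?_
    rw [show k + 2 * -(m : ℤ) = k + 2 * (-(m : ℤ) - 1) + 2 by ring]
    exact s _

theorem rk_one {γ : ℝ → C3} (h : Hl (Bri 1) γ γ) (k : ℤ) : RK 1 γ k := by
  obtain ⟨Φ, Ψ, d⟩ := dif_S3_Bri
  obtain ⟨m, r, c, -⟩ := lev_bri (n := 1) one_ne_zero
  have z := gq_of_S3 c m r d
  have q := (rk1_hl d h).symm
  obtain ⟨j, rfl | rfl⟩ : ∃ j, k = 0 + 2 * j ∨ k = 5 + 2 * j := by
    rcases Int.even_or_odd' k with ⟨j, e | e⟩
    exacts [⟨j, .inl (by omega)⟩, ⟨j - 2, .inr (by omega)⟩]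
  · refine z.hl q ?_
    have e : (fun t : ℝ => mu (ex ((0 : ℤ) * t))) = fun _ => ContinuousLinearMap.id ℝ E3 :=
      funext fun t => ContinuousLinearMap.ext fun v => by
        rw [tw_ex, zpow_zero, rot_mu, one_mul]
        rfl
    exact e ▸ rk1_two 0 j
  · have p : Φ (0, 1) ∈ Bri 1 := d.mF (by simp [Sph])
    refine (z.twist one_ne_zero 1).hl ((rk1_hl d (Hl.refl ?_ (fun t => hY_bri (norm_ex _) p)
      fun t => ?_)).trans q) ?_
    · have := contDiff_ex.continuous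
      unfold hY
      fun_prop
    · rw [tw_ex, tw_ex, ex_one]
    · convert rk1_two 5 j using 4
      norm_num

end Pool.Agent.Lib.MP_b2e238_gt
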