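import Pool.Agent.Lib.MP_b2e238_gt.Z.Defs
import Pool.Agent.Lib.MP_b2e238_gt.K.Par

/-! Solid tori and sliding along them. -/

open scoped ContDiff Topology
open Set Metric Filter

noncomputable section

namespace Pool.Agent.Lib.MP_b2e238_gt

variable {V : Type} [NormedAddCommGroup V] [NormedSpace ℝ V]

variable {Y : Set V} {ν : ℝ × ℂ → V} {r : ℝ}

theorem slide_mem (t : ℝ) {z : ℂ} (k : ‖z‖ < r) :
    (t, z) ∈ Ioo (t - 1 / 2) (t - 1 / 2 + 1) ×ˢ ball (0 : ℂ) r :=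
  ⟨⟨by linarith, by linarith⟩, mem_ball_zero_iff.2 k⟩

theorem Tube.smooth (h : Tube Y ν r) : ContDiffOn ℝ ∞ ν (univ ×ˢ ball 0 r) := fun u k =>
  ((h.2 _).2.1.contDiffAt ((h.2 _).1.mem_nhds
    (slide_mem u.1 (mem_ball_zero_iff.1 k.2)))).contDiffWithinAt

theorem Tube.mem (h : Tube Y ν r) (t : ℝ) {z : ℂ} (k : ‖z‖ < r) : ν (t, z) ∈ Y :=
  (h.2 _).2.2.2.1 (slide_mem t k)

theorem Tube.int (h : Tube Y ν r) (t : ℝ) (z : ℂ) (n : ℤ) : ν (t + n, z) = ν (t, z) :=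
  per_int (c := fun t => ν (t, z)) (fun t => h.1 t _) t n

theorem Tube.inj (h : Tube Y ν r) {t t' : ℝ} {z z' : ℂ} (k : ‖z‖ < r) (k' : ‖z'‖ < r)
    (e : ν (t, z) = ν (t', z')) : z = z' ∧ ∃ n : ℤ, t' = t + n := by
  obtain ⟨a, b⟩ := abs_le.1 (abs_sub_round (t' - t))
  have c := h.int (t' - round (t' - t)) z' (round (t' - t))
  rw [sub_add_cancel, ← e] at c
  have := (h.2 ((t + (t' - round (t' - t)) - 1) / 2)).2.2.1 (x₁ := (t, z))
    (x₂ := (t' - round (t' - t), z')) ⟨⟨by linarith, by linarith⟩, mem_ball_zero_iff.2 k⟩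
    ⟨⟨by linarith, by linarith⟩, mem_ball_zero_iff.2 k'⟩ c
  exact ⟨congrArg Prod.snd this, round (t' - t), by linarith [(Prod.ext_iff.1 this).1]⟩

theorem Tube.opn (h : Tube Y ν r) : Opn (ν '' {u | ‖u.2‖ < r}) Y := by
  refine ⟨?_, ?_⟩ <;> rintro _ ⟨u, hu, rfl⟩
  · exact h.mem u.1 hu
  · exact ((h.2 _).2.2.2.2 _ (slide_mem u.1 hu)).2 _
      ((isOpen_lt continuous_snd.norm continuous_const).mem_nhds hu)

theorem Tube.compact (h : Tube Y ν r) {r₁ : ℝ} (k : r₁ < r) : IsCompact (ν '' {u | ‖u.2‖ ≤ r₁}) := by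
  have := (isCompact_Icc.prod (isCompact_closedBall (0 : ℂ) r₁)).image_of_continuousOn
    (h.smooth.continuousOn.mono (prod_mono (subset_univ (Icc (0 : ℝ) 1)) (closedBall_subset_ball k)))
  convert this using 1
  refine Subset.antisymm ?_ (image_mono fun u hu => mem_closedBall_zero_iff.1 hu.2)
  rintro _ ⟨u, hu, rfl⟩
  refine ⟨(Int.fract u.1, u.2), ⟨⟨Int.fract_nonneg _, (Int.fract_lt_one _).le⟩,
    mem_closedBall_zero_iff.2 hu⟩, ?_⟩
  rw [← h.int _ _ ⌊u.1⌋, Int.fract_add_floor]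

variable [FiniteDimensional ℝ V]

/-- On the image of the tube use the inverse (`Par.dif`) of `ν` on `Ioo s (s + 1) ×ˢ ball 0 r`; off
the compact set `ν '' {‖z‖ ≤ r₁}` the map is the identity. -/
theorem exists_slide (h : Tube Y ν r) {b : ℂ → ℝ} (hb : ContDiff ℝ ∞ b) {r₁ : ℝ} (k : r₁ < r)
    (b0 : ∀ z, r₁ ≤ ‖z‖ → b z = 0) : ∃ D : ℝ → V → V, ContDiffOn ℝ ∞ D.uncurry (univ ×ˢ Y) ∧
      (∀ τ, MapsTo (D τ) Y Y) ∧ (∀ τ t z, ‖z‖ < r → D τ (ν (t, z)) = ν (t + τ * b z, z)) ∧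
      (∀ τ a, a ∉ ν '' {u | ‖u.2‖ < r} → D τ a = a) ∧ (∀ a, D 0 a = a) ∧
      ∀ τ σ a, D τ (D σ a) = D (τ + σ) a := by
  classical
  let D : ℝ → V → V := fun τ a => if m : a ∈ ν '' {u | ‖u.2‖ < r} then
    ν (m.choose.1 + τ * b m.choose.2, m.choose.2) else a
  have d1 (τ t z) (hz : ‖z‖ < r) : D τ (ν (t, z)) = ν (t + τ * b z, z) := by
    have m : ν (t, z) ∈ ν '' {u | ‖u.2‖ < r} := ⟨_, hz, rfl⟩
    obtain ⟨e, n, e'⟩ := h.inj (t' := m.choose.1) hz m.choose_spec.1 m.choose_spec.2.symm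
    simp only [D, dif_pos m]
    rw [← e, e', add_right_comm, h.int]
  have d2 (τ a) (m : a ∉ ν '' {u | ‖u.2‖ < r}) : D τ a = a := dif_neg m
  refine ⟨D, fun q hq => ?_, fun τ a ha => ?_, d1, d2, fun a => ?_, fun τ σ a => ?_⟩
  · by_cases m : q.2 ∈ ν '' {u | ‖u.2‖ < r}
    · obtain ⟨u, hu, e⟩ := m
      have p := h.2 (u.1 - 1 / 2)
      obtain ⟨ψ, d⟩ := p.dif
      have c := d.cG.comp (s := (univ : Set ℝ) ×ˢ _) contDiffOn_snd fun x k => k.2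
      have c' := h.smooth.comp ((c.fst.add (contDiffOn_fst.mul (hb.comp_contDiffOn c.snd))).prodMk
        c.snd) fun x k => ⟨trivial, (d.mG k.2).2⟩
      have m' := mk_mem_prod (mem_univ q.1) (mem_image_of_mem ν (slide_mem u.1 hu))
      rw [Prod.mk.eta, e, Prod.mk.eta] at m'
      refine ((c'.congr fun x k => ?_) q m').mono_of_mem_nhdsWithin
        (((Opn.refl _).prod p.opn).2 q m')
      have := d1 x.1 (ψ x.2).1 (ψ x.2).2 (mem_ball_zero_iff.1 (d.mG k.2).2)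
      rwa [Prod.mk.eta, d.fg _ k.2] at this
    · refine (contDiffAt_snd.congr_of_eventuallyEq (mem_of_superset
        (((h.compact k).isClosed.isOpen_compl.preimage continuous_snd).mem_nhds fun n =>
          m (image_mono (fun u hu => lt_of_le_of_lt hu k) n)) fun x hx => ?_)).contDiffWithinAt
      by_cases n : x.2 ∈ ν '' {u | ‖u.2‖ < r}
      · obtain ⟨u, hu, e⟩ := n
        have := d1 x.1 u.1 u.2 hu
        rwa [b0 _ (not_le.1 fun l => hx ⟨u, l, e⟩).le, mul_zero, add_zero, Prod.mk.eta, e] at this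
      · exact d2 _ _ n
  all_goals by_cases m : a ∈ ν '' {u | ‖u.2‖ < r}
  · obtain ⟨⟨t, z⟩, hu, rfl⟩ := m
    rw [d1 _ _ _ hu]
    exact h.mem _ hu
  · rwa [d2 _ _ m]
  · obtain ⟨⟨t, z⟩, hu, rfl⟩ := m
    rw [d1 _ _ _ hu, zero_mul, add_zero]
  · exact d2 _ _ m
  · obtain ⟨⟨t, z⟩, hu, rfl⟩ := m
    rw [d1 _ _ _ hu, d1 _ _ _ hu, d1 _ _ _ hu]
    congr 2
    ring
  · rw [d2 _ _ m, d2 _ _ m, d2 _ _ m]

theorem Tube.tb (h : Tube Y ν r) (k : 0 < r) : Tb (Y ×ˢ sphere (0 : ℂ) 1) (T0 ν) (min r 4⁻¹) := by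
  have n {x : E3} (hx : x ∈ ball (0 : E3) (min r 4⁻¹)) : ‖x.1‖ < r ∧ |x.2| < 4⁻¹ := by
    have := lt_min_iff.1 (mem_ball_zero_iff.1 hx)
    exact ⟨(norm_fst_le x).trans_lt this.1, (norm_snd_le x).trans_lt this.2⟩
  refine ⟨lt_min k (by norm_num), fun t x => ?_, fun s => ⟨isOpen_Ioo.prod isOpen_ball, ?_,
    fun u hu v hv e => ?_, fun u hu => ⟨h.mem _ (n hu.2).1, mem_sphere_zero_iff_norm.2 (norm_ex _)⟩,
    fun u hu => ?_⟩⟩
  · simp only [T0, ex_one]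
    rw [← h.1 (x.2 - (t + 1))]
    congr 3
    ring
  · exact (h.smooth.comp (f := fun u : ℝ × E3 => (u.2.2 - u.1, u.2.1)) (by fun_prop)
      fun u hu => ⟨trivial, mem_ball_zero_iff.2 (n hu.2).1⟩).prodMk
        (contDiff_ex.comp contDiff_fst).contDiffOn
  · have a : u.1 = v.1 := (par_ex s).2.2.1 hu.1 hv.1 (congrArg Prod.snd e)
    obtain ⟨b, m, c⟩ := h.inj (n hu.2).1 (n hv.2).1 (congrArg Prod.fst e)
    have : |(m : ℝ)| < 1 := by
      have := abs_lt.1 (n hu.2).2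
      have := abs_lt.1 (n hv.2).2
      exact abs_lt.2 ⟨by linarith, by linarith⟩
    obtain rfl : m = 0 := Int.abs_lt_one_iff.1 (by exact_mod_cast this)
    exact Prod.ext a (Prod.ext b (by simpa [a] using c.symm))
  · have p := (h.2 (u.2.2 - u.1 - 1 / 2)).prod (par_ex s)
    let f : ℝ × E3 → (ℝ × ℂ) × ℝ := fun u => ((u.2.2 - u.1, u.2.1), u.1)
    have c : ContDiff ℝ ∞ f := by fun_prop
    exact (p.comp (O := f ⁻¹' _) (f := f) (g := fun v => (v.2, v.1.2, v.1.1 + v.2))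
      ⟨c.contDiffOn, by fun_prop, fun _ k => k, fun _ k => by simpa [f] using k, by simp [f],
        by simp [f]⟩ (p.1.preimage c.continuous)).2.2.2.2 u ⟨slide_mem _ (n hu.2).1, hu.1⟩

end Pool.Agent.Lib.MP_b2e238_gt
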