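import Pool.Agent.Lib.MP_b2e238_gt.Z.Defs
import Pool.Agent.Lib.MP_b2e238_gt.K.Par

/-! Calculus of the local form of branched double covers. -/

open scoped ContDiff Topology
open Set Metric

noncomputable section

namespace Pool.Agent.Lib.MP_b2e238_gt

variable {P V W V' W' : Type} [NormedAddCommGroup P] [NormedSpace ℝ P] [NormedAddCommGroup V]
  [NormedSpace ℝ V] [NormedAddCommGroup W] [NormedSpace ℝ W] [NormedAddCommGroup V']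
  [NormedSpace ℝ V'] [NormedAddCommGroup W'] [NormedSpace ℝ W'] [FiniteDimensional ℝ P]
  [FiniteDimensional ℝ V] [FiniteDimensional ℝ W] [FiniteDimensional ℝ V']
  [FiniteDimensional ℝ W']

section Br
variable {A A₁ Z : Set V} {B B₁ F : Set W} {A' A₁' Z' : Set V'} {B' B₁' : Set W'} {π : V → W}
  {π' : V' → W'} {a : V}
theorem Br.brAt (h : Br P A B F π) (ha : a ∈ A) : BrAt P A B (π ⁻¹' F) π a := h.2.2 a ha
theorem br_of_brAt (h2 : ∀ b ∈ B \ F, (A ∩ π ⁻¹' {b}).ncard = 2)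
    (h1 : ∀ b ∈ F, (A ∩ π ⁻¹' {b}).ncard = 1) (h : ∀ a ∈ A, BrAt P A B (π ⁻¹' F) π a) :
    Br P A B F π := ⟨h2, h1, h⟩
theorem BrAt.map (h : BrAt P A B Z π a) {Φ : V → V'} {Φ' : V' → V} {Θ : W → W'} {Θ' : W' → W}
    (d : Dif A₁ A₁' Φ Φ') (o : Opn A₁ A) (o' : Opn A₁' A') (e : Dif B₁ B₁' Θ Θ') (q : Opn B₁ B)
    (q' : Opn B₁' B') (ha : a ∈ A₁) (m : MapsTo π A₁ B₁)
    (c : ∀ x ∈ A₁, π' (Φ x) = Θ (π x) ∧ (Φ x ∈ Z' ↔ x ∈ Z)) : BrAt P A' B' Z' π' (Φ a) := by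
  obtain ⟨k, φ, ψ, U, U', hk, p, p', ⟨u, hu, rfl⟩, z⟩ := h
  refine ⟨k, Φ ∘ φ, Θ ∘ ψ, U ∩ φ ⁻¹' A₁, U' ∩ ψ ⁻¹' B₁, hk,
    d.par o o' (p.mono (par_pre p.2.1.continuousOn p.1 o p.2.2.2.1) inter_subset_left)
      fun _ h => h.2,
    e.par q q' (p'.mono (par_pre p'.2.1.continuousOn p'.1 q p'.2.2.2.1) inter_subset_left)
      fun _ h => h.2, ⟨u, ⟨hu, ha⟩, rfl⟩, fun v hv => ?_⟩
  obtain ⟨e1, e2, e3⟩ := z v hv.1
  have := m hv.2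
  refine ⟨⟨e1, by rwa [mem_preimage, ← e2]⟩, ?_, ?_⟩
  · rw [Function.comp_apply, (c _ hv.2).1, e2, Function.comp_apply]
  · rw [Function.comp_apply, (c _ hv.2).2, e3]
theorem BrAt.prod (h : BrAt ℝ A B Z π a) (τ : ℝ) :
    BrAt ℂ (A ×ˢ (univ : Set ℝ)) (B ×ˢ (univ : Set ℝ)) (Z ×ˢ univ) (Prod.map π id) (a, τ) := by
  obtain ⟨k, φ, ψ, U, U', hk, c, q, ⟨u, hu, eu⟩, e⟩ := h
  let L : ℂ × ℂ → (ℝ × ℂ) × ℝ := fun v => ((v.1.re, v.2), v.1.im)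
  let L' : (ℝ × ℂ) × ℝ → ℂ × ℂ := fun v => (v.1.1 + v.2 * .I, v.1.2)
  have cL : ContDiff ℝ ∞ L :=
    ((Complex.reCLM.contDiff.comp contDiff_fst).prodMk contDiff_snd).prodMk
      (Complex.imCLM.contDiff.comp contDiff_fst)
  have cL' : ContDiff ℝ ∞ L' :=
    ((Complex.ofRealCLM.contDiff.comp contDiff_fst.fst).add
      ((Complex.ofRealCLM.contDiff.comp contDiff_snd).mul contDiff_const)).prodMk contDiff_fst.snd
  have LL : ∀ v, L (L' v) = v := fun v => by simp [L, L']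
  have d : ∀ O, Dif (L ⁻¹' O) O L L' := fun O => ⟨cL.contDiffOn, cL'.contDiffOn, fun _ k => k,
    fun v k => by rwa [mem_preimage, LL], fun v _ => by simp [L, L'], fun v _ => LL v⟩
  have x : Par (univ : Set ℝ) id univ := (Dif.refl _).to_par isOpen_univ (.refl _)
  refine ⟨k, Prod.map φ id ∘ L, Prod.map ψ id ∘ L, _, _, hk,
    (c.prod x).comp (d _) ((c.1.prod isOpen_univ).preimage cL.continuous),
    (q.prod x).comp (d _) ((q.1.prod isOpen_univ).preimage cL.continuous),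
    ⟨L' (u, τ), ?_, ?_⟩, fun v hv => ?_⟩
  · rw [mem_preimage, LL]
    exact ⟨hu, trivial⟩
  · rw [Function.comp_apply, LL]
    exact Prod.ext eu rfl
  · obtain ⟨e1, e2, e3⟩ := e _ hv.1
    exact ⟨⟨e1, trivial⟩, Prod.ext e2 rfl, Iff.trans (and_iff_left trivial) e3⟩
theorem BrAt.mem (h : BrAt P A B Z π a) : a ∈ A ∧ π a ∈ B := by
  obtain ⟨k, φ, ψ, U, U', -, p, q, ⟨u, hu, rfl⟩, e⟩ := h
  exact ⟨p.2.2.2.1 hu, (e u hu).2.1 ▸ q.2.2.2.1 (e u hu).1⟩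

theorem Br.mapsTo (h : Br P A B F π) : MapsTo π A B := fun _ ha => (h.brAt ha).mem.2

theorem Br.sub (h : Br P A B F π) : F ⊆ B := fun b hb => by
  obtain ⟨a, e⟩ := ncard_eq_one.1 (h.2.1 b hb)
  have : a ∈ A ∩ π ⁻¹' {b} := e ▸ rfl
  exact this.2 ▸ h.mapsTo this.1

theorem Br.uniq (h : Br P A B F π) {a' : V} (ha : a ∈ A) (ha' : a' ∈ A) (f : π a ∈ F)
    (e : π a' = π a) : a' = a := by
  obtain ⟨c, k⟩ := ncard_eq_one.1 (h.2.1 _ f)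
  have h1 : a ∈ A ∩ π ⁻¹' {π a} := ⟨ha, rfl⟩
  have h2 : a' ∈ A ∩ π ⁻¹' {π a} := ⟨ha', e⟩
  rw [k] at h1 h2
  exact h2.trans h1.symm
end Br

theorem Br.dif {A : Set V} {A' : Set V'} {B F : Set W} {π : V → W} {Φ : V → V'} {Ψ : V' → V}
    (h : Br P A B F π) (d : Dif A A' Φ Ψ) : Br P A' B F (π ∘ Ψ) := by
  have e : ∀ b, (A' ∩ (π ∘ Ψ) ⁻¹' {b}).ncard = (A ∩ π ⁻¹' {b}).ncard := fun b => by
    rw [← (d.injOn.mono (inter_subset_left (t := π ⁻¹' {b}))).ncard_image]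
    congr 1
    ext x
    constructor
    · exact fun k => ⟨Ψ x, ⟨d.mG k.1, k.2⟩, d.fg x k.1⟩
    · rintro ⟨a, k, rfl⟩
      exact ⟨d.mF k.1, (congrArg π (d.gf a k.1)).trans k.2⟩
  refine br_of_brAt (fun b hb => (e b).trans (h.1 b hb)) (fun b hb => (e b).trans (h.2.1 b hb))
    fun x hx => ?_
  rw [← d.fg x hx]
  exact (h.brAt (d.mG hx)).map d (.refl _) (.refl _) (Dif.refl B) (.refl _) (.refl _) (d.mG hx)
    h.mapsTo fun a ha => ⟨congrArg π (d.gf a ha), by simp [d.gf a ha]⟩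
theorem Tube.dif {A : Set V} {A' : Set V'} {μ : ℝ × ℂ → V} {r : ℝ} {Φ : V → V'} {Ψ : V' → V}
    (h : Tube A μ r) (d : Dif A A' Φ Ψ) : Tube A' (Φ ∘ μ) r :=
  ⟨fun t z => congrArg Φ (h.1 t z), fun s =>
    d.par (.refl _) (.refl _) (h.2 s) (h.2 s).2.2.2.1⟩
theorem Br.contOn {A : Set V} {B F : Set W} {π : V → W} (h : Br P A B F π) :
    ContDiffOn ℝ ∞ π A ∧ MapsTo π A B := by
  refine ⟨fun a ha => ?_, h.mapsTo⟩
  obtain ⟨k, φ, ψ, U, U', -, p, q, m, e⟩ := h.2.2 a ha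
  obtain ⟨χ, d⟩ := p.dif
  have s : ContDiff ℝ ∞ fun u : P × ℂ => (u.1, u.2 ^ k) := contDiff_fst.prodMk (contDiff_snd.pow k)
  have c : ContDiffOn ℝ ∞ π (φ '' U) := by
    refine (q.2.1.comp (s.comp_contDiffOn d.cG) fun x hx => (e _ (d.mG hx)).1).congr fun x hx => ?_
    conv_lhs => rw [← d.fg x hx]
    exact (e _ (d.mG hx)).2.1
  exact (c a m).mono_of_mem_nhdsWithin (p.opn.2 a m)

end Pool.Agent.Lib.MP_b2e238_gt
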