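import Pool.Agent.Lib.MP_b2e238_gt.Z.Br
import Pool.Agent.Lib.MP_b2e238_gt.Z.Slide

/-! The lift of the roll to the branched double cover. -/

open scoped ContDiff Topology
open Set Metric

noncomputable section

namespace Pool.Agent.Lib.MP_b2e238_gt

variable {V : Type} [NormedAddCommGroup V] [NormedSpace ℝ V] [FiniteDimensional ℝ V]

variable {Y : Set V} {p : V → (ℝ × ℂ) × ℝ} {ν' : ℝ × ℂ → V} {ν : ℝ × ℂ → (ℝ × ℂ) × ℝ} {β : ℝ → ℝ}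
  {ρ : (ℝ × ℂ) × ℝ → (ℝ × ℂ) × ℝ} {f : ℝ → (ℝ × ℂ) × ℝ → (ℝ × ℂ) × ℝ}

theorem pre_sq {z : ℂ} (hz : ‖z‖ < 2) : ‖z ^ 2‖ < 4 := by
  rw [norm_pow]
  nlinarith [norm_nonneg z]

theorem pre_tube (hp : Br ℝ Y (Sph ℝ) (range fun t => ν (t, 0)) p) (hν' : Tube Y ν' 2)
    (hν : Tube (Sph ℝ) ν 4) (lift : ∀ t z, ‖z‖ < 2 → p (ν' (t, z)) = ν (t, z ^ 2)) {a : V}
    (ha : a ∈ Y) {t : ℝ} {z : ℂ} (hz : ‖z‖ < 2) (e : p a = ν (t, z ^ 2)) :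
    a = ν' (t, z) ∨ a = ν' (t, -z) := by
  have hz' : ‖-z‖ < 2 := by rwa [norm_neg]
  have l := lift t z hz
  have l' : p (ν' (t, -z)) = ν (t, z ^ 2) := by rw [lift t _ hz', neg_sq]
  by_cases z0 : z = 0
  · subst z0
    exact .inl (hp.uniq (hν'.mem t hz) ha ⟨t, by rw [l]; simp⟩ (e.trans l.symm))
  · have nf : ν (t, z ^ 2) ∉ range fun t => ν (t, 0) := fun ⟨s, k⟩ =>
      pow_ne_zero 2 z0 (hν.inj (by simp) (pre_sq hz) k).1.symm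
    have c := hp.1 _ ⟨hν.mem t (pre_sq hz), nf⟩
    have ne : ν' (t, z) ≠ ν' (t, -z) := fun k => z0 (by
      have := (hν'.inj hz hz' k).1
      linear_combination (1 / 2 : ℂ) * this)
    have s : ({ν' (t, z), ν' (t, -z)} : Set V) ⊆ Y ∩ p ⁻¹' {ν (t, z ^ 2)} := by
      rintro x (rfl | rfl)
      exacts [⟨hν'.mem t hz, l⟩, ⟨hν'.mem t hz', l'⟩]
    have q := eq_of_subset_of_ncard_le s (by rw [c, ncard_pair ne])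
      (finite_of_ncard_ne_zero (by rw [c]; norm_num))
    have m : a ∈ Y ∩ p ⁻¹' {ν (t, z ^ 2)} := ⟨ha, e⟩
    rwa [← q] at m
theorem exists_drag (hp : Br ℝ Y (Sph ℝ) (range fun t => ν (t, 0)) p) (hν' : Tube Y ν' 2)
    (hν : Tube (Sph ℝ) ν 4) (lift : ∀ t z, ‖z‖ < 2 → p (ν' (t, z)) = ν (t, z ^ 2))
    (hβ : ContDiff ℝ ∞ β) (β0 : ∀ r ≤ 1, β r = 0) (β1 : ∀ r ≥ 3, β r = 1)
    (ρ1 : ∀ t z, ‖z‖ < 4 → ρ (ν (t, z)) = ν (t + β ‖z‖, z))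
    (ρ2 : ∀ y ∉ ν '' {u | ‖u.2‖ < 4}, ρ y = y) :
    ∃ D : ℝ → V → V, ContDiffOn ℝ ∞ D.uncurry (univ ×ˢ Y) ∧ (∀ τ, MapsTo (D τ) Y Y) ∧
      (∀ a, D 0 a = a) ∧ (∀ τ σ a, D τ (D σ a) = D (τ + σ) a) ∧
      (∀ τ t z, ‖z‖ ≤ 1 → D τ (ν' (t, z)) = ν' (t - τ, z)) ∧ ∀ a ∈ Y, p (D 1 a) = ρ (p a) := by
  obtain ⟨D, c, m, d1, d2, d0, da⟩ := exists_slide hν' (b := fun z => β (‖z‖ ^ 2) - 1)
    ((hβ.comp (contDiff_norm_sq ℝ)).sub contDiff_const) (r₁ := 7 / 4) (by norm_num)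
    fun z k => by rw [β1 _ (by nlinarith), sub_self]
  refine ⟨D, c, m, d0, da, fun τ t z k => ?_, fun a ha => ?_⟩
  · rw [d1 τ t z (by linarith), β0 _ (by nlinarith [norm_nonneg z])]
    congr 2
    ring
  · by_cases k : a ∈ ν' '' {u | ‖u.2‖ < 2}
    · obtain ⟨⟨t, z⟩, hz, rfl⟩ := k
      rw [d1 1 t z hz, lift _ z hz, lift _ z hz, ρ1 _ _ (pre_sq hz), norm_pow, ← hν.1]
      congr 2
      ring
    · rw [d2 1 a k, ρ2]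
      rintro ⟨⟨t, w⟩, hw, e⟩
      obtain ⟨z, rfl⟩ := IsAlgClosed.exists_pow_nat_eq w two_pos
      have hz : ‖z‖ < 2 := by
        have : ‖z ^ 2‖ < 4 := hw
        rw [norm_pow] at this
        nlinarith [norm_nonneg z]
      rcases pre_tube hp hν' hν lift ha hz e.symm with h | h
      · exact k ⟨_, hz, h.symm⟩
      · exact k ⟨_, (by rwa [mem_ofPred_eq, norm_neg] : (t, -z) ∈ {u : ℝ × ℂ | ‖u.2‖ < 2}), h.symm⟩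

end Pool.Agent.Lib.MP_b2e238_gt
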