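import Pool.Agent.Lib.MP_b2e238_gt.Z.Defs
import Pool.Agent.Lib.MP_b2e238_gt.K.HU
import Pool.Agent.Lib.MP_b2e238_gt.B.Defs

/-! The even base: surgery on a circle fibre of `S³ × S¹`, and `Σ(2,3,1) = S³`. -/

open scoped ContDiff Topology
open Set Metric

noncomputable section

namespace Pool.Agent.Lib.MP_b2e238_gt

variable {P V W V' W' : Type} [NormedAddCommGroup P] [NormedSpace ℝ P] [NormedAddCommGroup V]
  [NormedSpace ℝ V] [NormedAddCommGroup W] [NormedSpace ℝ W] [NormedAddCommGroup V']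
  [NormedSpace ℝ V'] [NormedAddCommGroup W'] [NormedSpace ℝ W'] [FiniteDimensional ℝ P]
  [FiniteDimensional ℝ V] [FiniteDimensional ℝ W] [FiniteDimensional ℝ V']
  [FiniteDimensional ℝ W']

/-- The chart of `S³` at the pole. -/
def m1N (x : E3) : (ℝ × ℂ) × ℝ := nrm (x.swap, 1)

theorem m1_pos (x : E3) : 0 < pgQ ((x.swap, 1) : (ℝ × ℂ) × ℝ) := by
  simp only [pgQ, norm_one]
  positivity

theorem m1_mem (x : E3) : m1N x ∈ Sph ℝ := nrm_mem (m1_pos x)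

theorem m1_smooth : ContDiff ℝ ∞ m1N := contDiff_iff_contDiffAt.2 fun x =>
  (contDiffAt_nrm sqR (m1_pos x)).comp x (f := fun x : E3 => ((x.swap, 1) : (ℝ × ℂ) × ℝ))
    ((contDiffAt_snd.prodMk contDiffAt_fst).prodMk contDiffAt_const)

theorem m1_zero : m1N 0 = (0, 1) := by
  rw [m1N, nrm_self] <;> simp [Sph]

theorem m1_inv (x : E3) : (m1N x).2⁻¹ • (m1N x).1.swap = x := by
  have p := (Real.sqrt_pos.2 (m1_pos x)).ne'
  simp only [m1N, nrm_eq, Prod.smul_fst, Prod.smul_snd, smul_eq_mul, mul_one, inv_inv,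
    Prod.smul_swap, Prod.swap_swap]
  exact smul_inv_smul₀ p x

theorem gq_of_S3 {Y : Set V} {om : V → V →L[ℝ] E3} (h : Cf Y om) (hY : Mf E3 Y) (hR : Rt Y)
    {Φ : (ℝ × ℂ) × ℝ → V} {Ψ : V → (ℝ × ℂ) × ℝ} (d : Dif (Sph ℝ) Y Φ Ψ) :
    Gq Y om (fun _ => Φ (0, 1)) (fun _ => ContinuousLinearMap.id ℝ E3) (Sph ℂ) := by
  have c : ContDiff ℝ ∞ (Φ ∘ m1N) := d.cF.comp_contDiff m1_smooth m1_mem
  have m : ∀ x, (Φ ∘ m1N) x ∈ Y := fun x => d.mF (m1_mem x)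
  have c0 : DifferentiableAt ℝ (Φ ∘ m1N) 0 := c.differentiable (by simp) 0
  have g : ∀ x, Ψ ((Φ ∘ m1N) x) = m1N x := fun x => d.gf _ (m1_mem x)
  have k := (d.cG _ (m 0)).differentiableWithinAt (by simp)
  have i : Function.Injective (fderiv ℝ (Φ ∘ m1N) 0) :=
    par_imm (ψ := fun y => (Ψ y).2⁻¹ • (Ψ y).1.swap) (A := Y) Filter.univ_mem c0 (fun x _ => m x)
      ((k.snd.inv (by rw [g, m1_zero]; exact one_ne_zero)).smul (k.fst.snd.prodMk k.fst.fst))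
      fun x _ => by rw [g, m1_inv]
  obtain ⟨e, he⟩ := ht_inv (B := om ((Φ ∘ m1N) 0) ∘L fderiv ℝ (Φ ∘ m1N) 0)
    ((injective_iff_map_eq_zero _).2 fun x hx => (injective_iff_map_eq_zero _).1 i x
      (h.2 _ (m 0) _ (hu_der c0 (.of_forall m) x) hx))
  have f : fderiv ℝ (fun x => (Φ ∘ m1N) (e.symm x)) 0 =
      fderiv ℝ (Φ ∘ m1N) 0 ∘L (e.symm : E3 →L[ℝ] E3) := by
    have := e.symm.comp_right_fderiv (f := Φ ∘ m1N) (x := 0)
    rwa [map_zero] at this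
  have z := (gq_iff (X := Sph ℂ) h hY hR (c := fun _ x => (Φ ∘ m1N) (e.symm x)) one_pos
    (c.comp (e.symm.contDiff.comp contDiff_snd)).contDiffOn (fun _ _ _ => m _) (fun _ => rfl)
    fun _ => by rw [f]; exact i.comp e.symm.injective).1
    ((surg_base.lin e.symm).of_dif' (d.symm.prod (Dif.refl _)) one_pos
      (by rintro _ ⟨t, rfl⟩; exact ⟨m _, hu_ex t⟩) fun t x _ => Prod.ext (g _) rfl)
  simp only [f, map_zero, ← ContinuousLinearMap.comp_assoc, ← he,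
    ContinuousLinearEquiv.coe_comp_coe_symm] at z
  rw [← m1_zero]
  exact z

theorem m1_lin : Dif (Sph ℝ)
    {a : C3 | ‖a.1‖ ^ 2 + ‖a.2.1‖ ^ 2 + ‖a.2.2‖ ^ 2 = 1 ∧ a.2.2 = 0}
    (fun a => ((a.1.1 : ℂ) + a.2 * .I, a.1.2, 0)) fun b => ((b.1.re, b.2.1), b.1.im) := by
  refine ⟨ContDiff.contDiffOn ?_, ContDiff.contDiffOn ?_, fun a ha => ⟨?_, rfl⟩, fun b hb => ?_,
    fun a _ => by simp, fun b hb => Prod.ext (Complex.re_add_im _) (Prod.ext rfl hb.2.symm)⟩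
  · exact ((Complex.ofRealCLM.contDiff.comp contDiff_fst.fst).add
      ((Complex.ofRealCLM.contDiff.comp contDiff_snd).mul contDiff_const)).prodMk
      (contDiff_fst.snd.prodMk contDiff_const)
  · exact ((Complex.reCLM.contDiff.comp contDiff_fst).prodMk contDiff_snd.fst).prodMk
      (Complex.imCLM.contDiff.comp contDiff_fst)
  · have k : a.1.1 ^ 2 + ‖a.1.2‖ ^ 2 + ‖a.2‖ ^ 2 = 1 := ha
    rw [Real.norm_eq_abs, sq_abs] at k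
    simp only [norm_zero]
    rw [Complex.sq_norm, Complex.normSq_add_mul_I]
    linarith
  · have k := hb.1
    rw [hb.2, norm_zero, Complex.sq_norm, Complex.normSq_apply] at k
    change b.1.re ^ 2 + ‖b.2.1‖ ^ 2 + ‖b.1.im‖ ^ 2 = 1
    rw [Real.norm_eq_abs, sq_abs]
    linarith

theorem m1_scl : Dif {a : C3 | ‖a.1‖ ^ 2 + ‖a.2.1‖ ^ 2 + ‖a.2.2‖ ^ 2 = 1 ∧ a.2.2 = 0}
    {a : C3 | ‖a.1‖ ^ 4 + ‖a.2.1‖ ^ 6 = 1 ∧ a.2.2 = 0} (toY 1) (toB 1) := by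
  have k1 : ∀ a : C3, ‖a.1‖ ^ 2 + ‖a.2.1‖ ^ 2 + ‖a.2.2‖ ^ 2 = 1 → a ≠ 0 := fun a ha e => by
    simp [e] at ha
  have k2 : ∀ a : C3, ‖a.1‖ ^ 4 + ‖a.2.1‖ ^ 6 = 1 → a ≠ 0 := fun a ha e => by simp [e] at ha
  have k3 : ∀ a : C3, a ≠ 0 → a.2.2 = 0 → ‖a.1‖ ^ 4 + ‖a.2.1‖ ^ 6 ≠ 0 := fun a ha h e => by
    have h1 : 0 ≤ ‖a.1‖ ^ 4 := by positivity
    have h2 : 0 ≤ ‖a.2.1‖ ^ 6 := by positivity
    exact ha (Prod.ext (by simpa using (by linarith : ‖a.1‖ ^ 4 = 0))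
      (Prod.ext (by simpa using (by linarith : ‖a.2.1‖ ^ 6 = 0)) h))
  refine ⟨(toY_contDiffOn 1).mono fun a ha => k3 a (k1 a ha.1) ha.2,
    (toB_contDiffOn one_ne_zero).mono fun a ha => k2 a ha.1,
    fun a ha => ⟨toY_rho 1 (k3 a (k1 a ha.1) ha.2), ?_⟩,
    fun a ha => ⟨toB_norm one_ne_zero (k2 a ha.1), ?_⟩, fun a ha => ?_, fun a ha => ?_⟩
  · simp only [toY, scl, ha.2, smul_zero]
  · simp only [toB, scl, ha.2, smul_zero]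
  · rw [toY, toB_scl one_ne_zero _ (k1 a ha.1), toB_self one_ne_zero ha.1]
  · rw [toB, toY_scl 1 _ (ha.1.trans_ne one_ne_zero), toY_self 1 ha.1]

theorem m1_gr : Dif {a : C3 | ‖a.1‖ ^ 4 + ‖a.2.1‖ ^ 6 = 1 ∧ a.2.2 = 0} (Yn 1)
    (fun a => (a.1, a.2.1, -(a.1 ^ 2 + a.2.1 ^ 3))) fun b => (b.1, b.2.1, 0) := by
  refine ⟨ContDiff.contDiffOn (by fun_prop), ContDiff.contDiffOn (by fun_prop),
    fun a ha => ⟨by ring, ha.1⟩, fun b hb => ⟨hb.2, rfl⟩,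
    fun a ha => Prod.ext rfl (Prod.ext rfl ha.2.symm), fun b hb => Prod.ext rfl (Prod.ext rfl ?_)⟩
  linear_combination -hb.1

/-- The weighted projection from the round sphere, then the graph of `-(x² + y³)`. -/
theorem dif_S3_Yn : ∃ Φ Ψ, Dif (Sph ℝ) (Yn 1) Φ Ψ := ⟨_, _, (m1_lin.trans m1_scl).trans m1_gr⟩

theorem dif_S3_Bri : ∃ Φ Ψ, Dif (Sph ℝ) (Bri 1) Φ Ψ := by
  obtain ⟨Φ, Ψ, d⟩ := dif_S3_Yn
  obtain ⟨a, b, c, e, f⟩ := briY one_ne_zero (A := Bri 1) (B := Yn 1) (fun _ => Iff.rfl)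
    fun _ => Iff.rfl
  exact ⟨_, _, d.trans ⟨b, a, e, c, f.2, f.1⟩⟩

end Pool.Agent.Lib.MP_b2e238_gt
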