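import Pool.Agent.Lib.MP_b2e238_gt.Z.Defs
import Pool.Agent.Lib.MP_b2e238_gt.K.Par
import Pool.Agent.Lib.MP_b2e238_gt.B.BriY

/-! Weighted polar coordinates. -/

open scoped ContDiff Topology
open Set Metric

noncomputable section

namespace Pool.Agent.Lib.MP_b2e238_gt

/-- equal to `1` below `1` and to the identity above `2` -/
def kapG (u : ℝ) : ℝ := 1 + (u - 1) * Real.smoothTransition (u - 1)

theorem kapG_low {u : ℝ} (h : u ≤ 1) : kapG u = 1 := by
  rw [kapG, Real.smoothTransition.zero_of_nonpos (sub_nonpos.2 h), mul_zero, add_zero]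

theorem kapG_high {u : ℝ} (h : 2 ≤ u) : kapG u = u := by
  rw [kapG, Real.smoothTransition.one_of_one_le (by linarith), mul_one, add_sub_cancel]

theorem kapG_max (u : ℝ) : kapG u = 1 + max (u - 1) 0 * Real.smoothTransition (u - 1) := by
  rcases le_total u 1 with h | h
  · rw [kapG_low h, max_eq_right (sub_nonpos.2 h), zero_mul, add_zero]
  · rw [kapG, max_eq_left (sub_nonneg.2 h)]

theorem kapG_pos (u : ℝ) : 0 < kapG u := by
  have := mul_nonneg (le_max_right (u - 1) 0) (Real.smoothTransition.nonneg (u - 1))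
  rw [kapG_max]; linarith

theorem kapG_mono : Monotone kapG := fun a b h => by
  have k : a - 1 ≤ b - 1 := by linarith
  have := mul_le_mul (max_le_max k (le_refl 0)) (Real.smoothTransition.monotone k)
    (Real.smoothTransition.nonneg _) (le_max_right _ _)
  rw [kapG_max, kapG_max]; linarith

theorem kapG_smooth : ContDiff ℝ ∞ kapG :=
  contDiff_const.add ((contDiff_id.sub contDiff_const).mul
    (Real.smoothTransition.contDiff.comp (contDiff_id.sub contDiff_const)))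

/-- the logarithm of the scale factor -/
def kapH (u : ℝ) : ℝ := (Real.log (kapG u) - Real.log u) / 4

theorem kapH_smooth {u : ℝ} (h : u ≠ 0) : ContDiffAt ℝ ∞ kapH u :=
  ((kapG_smooth.contDiffAt.log (kapG_pos u).ne').sub (contDiffAt_id.log h)).div_const 4

theorem kap_der {A B : ℝ} (hA : 0 ≤ A) (hB : 0 ≤ B) (h : 0 < A + B) (t : ℝ) :
    ∃ d, 1 / 2 ≤ d ∧ HasDerivAt (fun t => t + kapH (Real.exp t ^ 2 * A + B)) d t := by
  have e := Real.exp_pos t
  have a : 0 ≤ Real.exp t ^ 2 * A := by positivity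
  have q : 0 < Real.exp t ^ 2 * A + B := by
    rcases hA.eq_or_lt with rfl | k
    · simpa using h
    · positivity
  have d1 : HasDerivAt (fun t => Real.exp t ^ 2 * A + B) (2 * (Real.exp t ^ 2 * A)) t :=
    ((((Real.hasDerivAt_exp t).pow 2).mul_const A).add_const B).congr_deriv (by simp; ring)
  have d2 := ((kapG_smooth.differentiable (by simp)) (Real.exp t ^ 2 * A + B)).hasDerivAt
  have p := d2.nonneg_of_monotone kapG_mono
  have g := kapG_pos (Real.exp t ^ 2 * A + B)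
  have d3 : HasDerivAt (fun t => kapG (Real.exp t ^ 2 * A + B)) _ t :=
    HasDerivAt.comp (h₂ := kapG) t d2 d1
  refine ⟨_, ?_, (hasDerivAt_id t).add (((d3.log g.ne').sub (d1.log q.ne')).div_const 4)⟩
  have b1 : 2 * (Real.exp t ^ 2 * A) / (Real.exp t ^ 2 * A + B) ≤ 2 := by
    rw [div_le_iff₀ q]; linarith
  have b2 := div_nonneg (mul_nonneg p (mul_nonneg zero_le_two a)) g.le
  linarith

theorem kap_root {φ : ℝ → ℝ} (h : ∀ t, ∃ d, 1 / 2 ≤ d ∧ HasDerivAt φ d t) :
    ∃ τ, ∀ t, φ t = 0 ↔ t = τ := by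
  choose d hd hφ using h
  have m : Monotone fun t => φ t - t / 2 := monotone_of_hasDerivAt_nonneg
    (fun t => (hφ t).sub ((hasDerivAt_id t).div_const 2)) fun t => sub_nonneg.2 (hd t)
  have s : StrictMono φ := strictMono_of_hasDerivAt_pos hφ fun t => by linarith [hd t]
  have c : Continuous φ := continuous_iff_continuousAt.2 fun t => (hφ t).continuousAt
  have n := abs_nonneg (φ 0)
  have h1 := m (show -(2 * |φ 0|) ≤ 0 by linarith)
  have h2 := m (show 0 ≤ 2 * |φ 0| by linarith)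
  obtain ⟨τ, hτ⟩ := intermediate_value_univ (-(2 * |φ 0|)) (2 * |φ 0|) c (show (0 : ℝ) ∈ _ from
    ⟨by simp only at h1; linarith [le_abs_self (φ 0)], by simp only at h2; linarith [neg_abs_le (φ 0)]⟩)
  exact ⟨τ, fun t => by rw [← hτ, s.injective.eq_iff]⟩

/-- dilation of the complex coordinate -/
def kapD (t : ℝ) (x : E3) : E3 := (Real.exp t • x.1, x.2)

theorem kapD_add (s t : ℝ) (x : E3) : kapD s (kapD t x) = kapD (s + t) x := by
  simp only [kapD, smul_smul, Real.exp_add]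

theorem kapD_zero (x : E3) : kapD 0 x = x := by simp [kapD]

theorem kapD_ne (t : ℝ) {x : E3} (h : x ≠ 0) : kapD t x ≠ 0 := fun e => h (by
  rw [← kapD_zero x, ← neg_add_cancel t, ← kapD_add, e]; simp [kapD])

theorem kapD_smooth : ContDiff ℝ ∞ fun u : E3 × ℝ => kapD u.2 u.1 := by
  unfold kapD; fun_prop

/-- the weighted square of the radius -/
def kapQ (c : ℝ) (x : E3) : ℝ := ‖x.1‖ ^ 2 / c ^ 2 + x.2 ^ 2 / (4 * c ^ 4)

theorem kapQ_smooth (c : ℝ) : ContDiff ℝ ∞ (kapQ c) :=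
  ((contDiff_fst.norm_sq ℝ).div_const _).add ((contDiff_snd.pow 2).div_const _)

theorem kapQ_pos {c : ℝ} (hc : 0 < c) {x : E3} (h : x ≠ 0) : 0 < kapQ c x := by
  unfold kapQ
  by_cases k : x.1 = 0
  · have : x.2 ≠ 0 := fun e => h (Prod.ext k e)
    positivity
  · positivity

theorem kapQ_D (c t : ℝ) (x : E3) :
    kapQ c (kapD t x) = Real.exp t ^ 2 * (‖x.1‖ ^ 2 / c ^ 2) + x.2 ^ 2 / (4 * c ^ 4) := by
  simp only [kapQ, kapD, norm_smul, Real.norm_eq_abs, Real.abs_exp]; ring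

theorem kap_dif {c : ℝ} (hc : 0 < c) :
    ∃ k', Dif ({0}ᶜ : Set E3) {0}ᶜ (fun x => kapD (kapH (kapQ c x)) x) k' := by
  have der : ∀ y : E3, y ≠ 0 → ∀ t, ∃ d, 1 / 2 ≤ d ∧
      HasDerivAt (fun t => t + kapH (kapQ c (kapD t y))) d t := fun y hy t => by
    simp only [kapQ_D]
    exact kap_der (by positivity) (by positivity) (kapQ_pos hc hy) t
  have sm : ∀ x : E3, x ≠ 0 → ContDiffAt ℝ ∞ (fun x => kapH (kapQ c x)) x := fun x hx =>
    (kapH_smooth (kapQ_pos hc hx).ne').comp x (kapQ_smooth c).contDiffAt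
  choose! τ hτ using fun y hy => kap_root (der y hy)
  refine ⟨fun y => kapD (τ y) y, fun x hx => ?_, fun y hy => ?_, fun x hx => kapD_ne _ hx,
    fun y hy => kapD_ne _ hy, fun x hx => ?_, fun y hy => ?_⟩
  · exact (kapD_smooth.contDiffAt.comp x (contDiffAt_id.prodMk (sm x hx))).contDiffWithinAt
  · obtain ⟨d, hd, k⟩ := der y hy (τ y)
    have s := ContDiffAt.comp (f := fun u : E3 × ℝ => kapD u.2 u.1) (y, τ y)
      (sm _ (kapD_ne _ hy)) kapD_smooth.contDiffAt
    have := root_smooth (F := fun u : E3 × ℝ => u.2 + kapH (kapQ c (kapD u.2 u.1))) (c := 0)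
      (s := τ) (a := y) (contDiffAt_snd.add s) ((isOpen_ne.eventually_mem hy).mono hτ) k
      (by linarith)
    exact (kapD_smooth.contDiffAt.comp y (contDiffAt_id.prodMk this)).contDiffWithinAt
  · have := (hτ _ (kapD_ne (kapH (kapQ c x)) hx) (-kapH (kapQ c x))).1 (by
      rw [kapD_add, neg_add_cancel, kapD_zero, neg_add_cancel])
    rw [← this, kapD_add, neg_add_cancel, kapD_zero]
  · rw [kapD_add, add_comm, (hτ y hy _).2 rfl, kapD_zero]

theorem exists_kap {r : ℝ} (h : 0 < r) : ∃ (k k' : E3 → E3) (L : E3 ≃L[ℝ] E3) (c ε : ℝ), 0 < c ∧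
    0 < ε ∧ Dif {0}ᶜ {0}ᶜ k k' ∧ k 0 = 0 ∧ (∀ x, r ≤ ‖x‖ → k x = x) ∧
    ∀ (ρ : ℝ) (o : E3), 0 < ρ → ρ < ε → o ∈ S2 →
      k (L (ρ • o)) = ((√(c * ρ) : ℝ) * o.1, 2 * c * ρ * o.2) := by
  obtain ⟨c, hc, c1, c2⟩ : ∃ c : ℝ, 0 < c ∧ 2 * c ≤ r ∧ 2 * c ≤ 1 :=
    ⟨min r 1 / 2, by positivity, by linarith [min_le_left r 1], by linarith [min_le_right r 1]⟩
  obtain ⟨k', d⟩ := kap_dif hc
  refine ⟨_, k', (ContinuousLinearEquiv.refl ℝ ℂ).prodCongr
    (ContinuousLinearEquiv.unitsEquivAut ℝ (Units.mk0 (2 * c) (by positivity))), c, c, hc, hc, d,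
    by simp [kapD], fun x hx => ?_, fun ρ o h0 h1 ho => ?_⟩
  · have q : 2 ≤ kapQ c x := by
      have a1 : 0 ≤ ‖x.1‖ ^ 2 / c ^ 2 := by positivity
      have a2 : 0 ≤ x.2 ^ 2 / (4 * c ^ 4) := by positivity
      rcases le_max_iff.1 (c1.trans hx) with k | k
      · have : 2 ≤ ‖x.1‖ ^ 2 / c ^ 2 := by
          rw [le_div_iff₀ (by positivity)]; nlinarith
        unfold kapQ; linarith
      · have : 2 ≤ x.2 ^ 2 / (4 * c ^ 4) := by
          have b1 : (2 * c) ^ 2 ≤ x.2 ^ 2 := by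
            rw [← sq_abs x.2]; exact pow_le_pow_left₀ (by positivity) k 2
          have b2 : c ^ 2 ≤ 1 / 4 := by nlinarith
          have b3 := mul_le_mul_of_nonneg_left b2 (sq_nonneg c)
          rw [le_div_iff₀ (by positivity)]; nlinarith
        unfold kapQ; linarith
    simp only [kapH, kapG_high q, sub_self, zero_div, kapD_zero]
  · have e : ((ContinuousLinearEquiv.refl ℝ ℂ).prodCongr (ContinuousLinearEquiv.unitsEquivAut ℝ
        (Units.mk0 (2 * c) (by positivity)))) (ρ • o) = (ρ • o.1, ρ * o.2 * (2 * c)) := rfl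
    have s : ‖o.1‖ ^ 2 + o.2 ^ 2 = 1 := ho
    have q : kapQ c (ρ • o.1, ρ * o.2 * (2 * c)) = (ρ / c) ^ 2 := by
      simp only [kapQ, norm_smul, Real.norm_eq_abs, abs_of_pos h0]
      field_simp
      linear_combination 4 * s
    have l : (ρ / c) ^ 2 ≤ 1 := pow_le_one₀ (by positivity) ((div_le_one hc).2 h1.le)
    have x : Real.exp (kapH ((ρ / c) ^ 2)) * ρ = √(c * ρ) := by
      refine (Real.sqrt_eq_iff_mul_self_eq (by positivity) (by positivity)).2 ?_ |>.symm
      have : Real.exp (kapH ((ρ / c) ^ 2)) * Real.exp (kapH ((ρ / c) ^ 2)) = (ρ / c)⁻¹ := by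
        rw [← Real.exp_add, kapH, kapG_low l, Real.log_one, Real.log_pow,
          ← Real.exp_log (show 0 < (ρ / c)⁻¹ by positivity), Real.log_inv]
        congr 1; push_cast; ring
      rw [mul_mul_mul_comm, this]
      field_simp
    rw [e]
    simp only [q, kapD, smul_smul, x]
    exact Prod.ext Complex.real_smul (by ring)

end Pool.Agent.Lib.MP_b2e238_gt
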