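import Pool.Agent.Lib.MP_b2e238_gt.Z.Slide

/-! The closure of the spun surface. -/

open scoped ContDiff Topology
open Set Metric

noncomputable section

namespace Pool.Agent.Lib.MP_b2e238_gt

variable {ν : ℝ × ℂ → (ℝ × ℂ) × ℝ} {ρ : (ℝ × ℂ) × ℝ → (ℝ × ℂ) × ℝ}
  {f : ℝ → (ℝ × ℂ) × ℝ → (ℝ × ℂ) × ℝ}

/-- The two discs round the ends, in polar coordinates. -/
def cloE (η : ℝ) (q : ℝ × ℝ) : (ℝ × ℂ) × ℂ := bd (dk (q.2 * ex q.1), (0, η))

theorem clo_S2 {η : ℝ} (h : η ^ 2 = 1) : (((0 : ℂ), η) : E3) ∈ S2 := by simp [S2, h]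

theorem clo_cont {η : ℝ} (h : η ^ 2 = 1) : Continuous (cloE η) := by
  have c1 : Continuous dk := continuousOn_univ.1 dk_dif.cF.continuousOn
  have c2 := contDiff_ex.continuous
  exact bind_dif.cF.continuousOn.comp_continuous (by fun_prop) fun q => ⟨trivial, clo_S2 h⟩

theorem clo_zero {η : ℝ} (h : η ^ 2 = 1) (t : ℝ) : cloE η (t, 0) = ((η, 0), 0) := by
  have : cloE η (t, 0) = nrm ((η, 0), 0) := by simp [cloE, bd, dk]
  rw [this, nrm_self]
  simp [Sph, h]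

theorem clo_page {η : ℝ} (h : η ^ 2 = 1) (t : ℝ) {s : ℝ} (hs : 0 < s) :
    page t (nrm ((η * s, 0), 1)) = cloE η (t, s) := by
  have := pg_nrm hs (clo_S2 h) (norm_ex t)
  rw [page_eq, cloE, ← this]
  simp [mul_comm]

theorem closure_spun (hν : Tube (Sph ℝ) ν 4) (pole : ∀ᶠ u in 𝓝 0, ν u = nrm (u, 1))
    (fix : ∀ s, ρ (ν (s, 0)) = ν (s, 0)) (hf : Triv ρ f) :
    closure {x | ∃ t s, s ∈ Ioo (0 : ℝ) 1 ∧ x = page t (f t (ν (s, 0)))} =
      {x | ∃ t s, s ∈ Ioo (0 : ℝ) 1 ∧ x = page t (f t (ν (s, 0)))} ∪ ends := by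
  obtain ⟨g, cf, -, f0, hg⟩ := hf
  set S := {x | ∃ t s, s ∈ Ioo (0 : ℝ) 1 ∧ x = page t (f t (ν (s, 0)))}
  let H : ℝ × ℝ → (ℝ × ℂ) × ℂ := fun q => page q.1 (f q.1 (ν (q.2, 0)))
  have z4 : ‖(0 : ℂ)‖ < 4 := by simp
  have mem : ∀ s, ν (s, 0) ∈ Sph ℝ := fun s => hν.mem s z4
  have cν : Continuous fun s : ℝ => ν (s, 0) :=
    hν.smooth.continuousOn.comp_continuous (by fun_prop) fun s => ⟨trivial, by simp⟩
  have ν0 : ν (0, 0) = (0, 1) := by
    have : ν (0, 0) = nrm (0, 1) := pole.self_of_nhds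
    rw [this, nrm_self]
    simp [Sph]
  have per : ∀ s, Function.Periodic (fun t => H (t, s)) 1 := fun s t => by
    simp only [H, page_eq, ex_one, (hg t _ (mem s)).2.2.2.2, fix]
  have c0 : Continuous fun s : ℝ => ((s, 0) : ℝ × ℂ) := by fun_prop
  have ev : ∀ᶠ s in 𝓝 (0 : ℝ), ν (s, 0) = nrm ((s, 0), 1) ∧ ∀ t, f t (ν (s, 0)) = ν (s, 0) :=
    ((c0.tendsto' 0 0 rfl).eventually pole).and ((cν.tendsto' 0 _ ν0).eventually f0)
  obtain ⟨ε, ε0, hε⟩ := Metric.eventually_nhds_iff.1 ev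
  obtain ⟨δ, δ0, δ1, δε⟩ : ∃ δ, 0 < δ ∧ δ < 1 ∧ δ < ε :=
    ⟨min (1 / 2) (ε / 2), by positivity, (min_le_left _ _).trans_lt (by norm_num),
      (min_le_right _ _).trans_lt (by linarith)⟩
  have key : ∀ η : ℝ, η ^ 2 = 1 → ∀ t s, 0 < s → s ≤ δ → H (t, η * s) = cloE η (t, s) :=
    fun η h t s s0 s1 => by
      have a : |η| = 1 := by rwa [← sq_eq_sq₀ (abs_nonneg _) zero_le_one, sq_abs, one_pow]
      obtain ⟨e1, e2⟩ := @hε (η * s) (by
        rw [Real.dist_eq, sub_zero, abs_mul, a, abs_of_pos s0]; linarith)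
      simp only [H]
      rw [e2, e1, clo_page h t s0]
  have k1 : ∀ t s, 0 < s → s ≤ δ → H (t, s) = cloE 1 (t, s) := fun t s s0 s1 => by
    rw [← key 1 (by simp) t s s0 s1, one_mul]
  have k2 : ∀ t s, 0 < s → s ≤ δ → H (t, 1 - s) = cloE (-1) (t, s) := fun t s s0 s1 => by
    rw [← key (-1) (by simp) t s s0 s1]
    simp only [H]
    rw [← hν.1 (-1 * s)]
    congr 4
    ring
  have i1 : ∀ t s, 0 < s → s ≤ δ → cloE 1 (t, s) ∈ S := fun t s s0 s1 =>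
    ⟨t, s, ⟨s0, by linarith⟩, (k1 t s s0 s1).symm⟩
  have i2 : ∀ t s, 0 < s → s ≤ δ → cloE (-1) (t, s) ∈ S := fun t s s0 s1 =>
    ⟨t, 1 - s, ⟨by linarith, by linarith⟩, (k2 t s s0 s1).symm⟩
  have cH : ContinuousOn H (Icc 0 1 ×ˢ Icc δ (1 - δ)) := by
    refine page_dif.cF.continuousOn.comp (f := fun q : ℝ × ℝ => (f q.1 (ν (q.2, 0)), ex q.1))
      ((cf.continuous.comp (continuous_fst.prodMk (cν.comp continuous_snd))).prodMk
        (contDiff_ex.continuous.comp continuous_fst)).continuousOn fun q hq =>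
      ⟨⟨(hg _ _ (mem _)).1, fun e => ?_⟩, by simp [norm_ex]⟩
    have e0 : f q.1 (ν (0, 0)) = (0, 1) := by rw [ν0, f0.self_of_nhds]
    have e1 : ν (0, 0) = ν (q.2, 0) := by
      rw [← (hg q.1 _ (mem 0)).2.2.1, e0, ← mem_singleton_iff.1 e, (hg q.1 _ (mem _)).2.2.1]
    obtain ⟨-, n, hn⟩ := hν.inj z4 z4 e1
    have a1 : (0 : ℝ) < n := by linarith [hq.2.1]
    have a2 : (n : ℝ) < 1 := by linarith [hq.2.2]
    have b1 : 0 < n := by exact_mod_cast a1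
    have b2 : n < 1 := by exact_mod_cast a2
    omega
  have cp : ∀ a b : ℝ, IsCompact (Icc (0 : ℝ) 1 ×ˢ Icc a b) := fun a b =>
    isCompact_Icc.prod isCompact_Icc
  have cl := ((((cp _ _).image_of_continuousOn cH).union
    ((cp 0 δ).image (clo_cont (η := 1) (by simp)))).union
    ((cp 0 δ).image (clo_cont (η := -1) (by simp)))).isClosed
  have lim : ∀ η : ℝ, η ^ 2 = 1 → (∀ s, 0 < s → s ≤ δ → cloE η (0, s) ∈ S) →
      (((η, 0), 0) : (ℝ × ℂ) × ℂ) ∈ closure S := fun η h i => by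
    have c : Continuous fun s : ℝ => cloE η (0, s) := (clo_cont h).comp (by fun_prop)
    refine mem_closure_of_tendsto (b := 𝓝[>] 0)
      ((c.tendsto' 0 _ (clo_zero h 0)).mono_left nhdsWithin_le_nhds) ?_
    filter_upwards [Ioc_mem_nhdsGT δ0] with s hs using i s hs.1 hs.2
  refine Subset.antisymm ((closure_minimal ?_ cl).trans ?_) (union_subset subset_closure ?_)
  · rintro _ ⟨t, s, hs, rfl⟩
    obtain ⟨y, hy, e⟩ := (per s).exists_mem_Ico₀ one_pos t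
    change H (t, s) ∈ _
    rw [show H (t, s) = H (y, s) from e]
    have hy' := Ico_subset_Icc_self hy
    rcases le_total s δ with a | a
    · exact .inl (.inr ⟨(y, s), ⟨hy', hs.1.le, a⟩, (k1 y s hs.1 a).symm⟩)
    rcases le_total s (1 - δ) with b | b
    · exact .inl (.inl ⟨(y, s), ⟨hy', a, b⟩, rfl⟩)
    · refine .inr ⟨(y, 1 - s), ⟨hy', by linarith [hs.2], by linarith⟩, ?_⟩
      rw [← k2 y _ (by linarith [hs.2]) (by linarith), sub_sub_cancel]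
  · rintro _ ((⟨⟨t, s⟩, h, rfl⟩ | ⟨⟨t, s⟩, h, rfl⟩) | ⟨⟨t, s⟩, h, rfl⟩)
    · exact .inl ⟨t, s, ⟨by linarith [h.2.1], by linarith [h.2.2]⟩, rfl⟩
    · rcases h.2.1.eq_or_lt with (rfl : 0 = s) | a
      · exact .inr (.inl (clo_zero (by simp) t))
      · exact .inl (i1 t s a h.2.2)
    · rcases h.2.1.eq_or_lt with (rfl : 0 = s) | a
      · exact .inr (.inr (clo_zero (by simp) t))
      · exact .inl (i2 t s a h.2.2)
  · rintro _ (rfl | rfl)
    exacts [lim 1 (by simp) (i1 0), lim (-1) (by simp) (i2 0)]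

end Pool.Agent.Lib.MP_b2e238_gt
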