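import Pool.Agent.Lib.MP_b2e238_gt.Z.Defs
import Pool.Agent.Lib.MP_b2e238_gt.K.Par

/-! Families over the circle, cut open. -/

open scoped ContDiff Topology
open Set Metric

noncomputable section

namespace Pool.Agent.Lib.MP_b2e238_gt

variable {V W : Type} [NormedAddCommGroup V] [NormedSpace ℝ V] [NormedAddCommGroup W]
  [NormedSpace ℝ W] [FiniteDimensional ℝ V] [FiniteDimensional ℝ W]

theorem cyl_image (s : ℝ) : ex '' Ioo s (s + 1) = sphere (0 : ℂ) 1 \ {ex s} := by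
  ext w
  constructor
  · rintro ⟨t, ht, rfl⟩
    refine ⟨mem_sphere_zero_iff_norm.2 (norm_ex t), fun k => ?_⟩
    obtain ⟨n, e⟩ := ex_eq (Eq.symm k)
    have a : (0 : ℝ) < n := by linarith [ht.1]
    have b : (n : ℝ) < 1 := by linarith [ht.2]
    norm_cast at a b
    omega
  · rintro ⟨h, k⟩
    have e := ex_arg (mem_sphere_zero_iff_norm.1 h)
    set t := w.arg / (2 * Real.pi)
    have e' : ex (s + Int.fract (t - s)) = w := by
      rw [← e, ← per_int ex_one (s + _) ⌊t - s⌋, add_assoc, Int.fract_add_floor, add_sub_cancel]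
    refine ⟨_, ⟨?_, ?_⟩, e'⟩
    · refine lt_add_of_pos_right _ ((Int.fract_nonneg _).lt_of_ne' fun z => k ?_)
      rw [← e', z, add_zero]; rfl
    · linarith [Int.fract_lt_one (t - s)]

theorem cyl {Y : Set V} {Y' : Set W} {D : ℝ → V → W} {D' : ℝ → W → V}
    (c : ContDiffOn ℝ ∞ D.uncurry (univ ×ˢ Y)) (c' : ContDiffOn ℝ ∞ D'.uncurry (univ ×ˢ Y'))
    (m : ∀ τ, MapsTo (D τ) Y Y') (m' : ∀ τ, MapsTo (D' τ) Y' Y)
    (i : ∀ τ, ∀ a ∈ Y, D' τ (D τ a) = a) (i' : ∀ τ, ∀ a ∈ Y', D τ (D' τ a) = a) (s : ℝ) :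
    ∃ G, Dif (Y ×ˢ Ioo s (s + 1)) (Y' ×ˢ (sphere (0 : ℂ) 1 \ {ex s}))
      (fun q => (D q.2 q.1, ex q.2)) G := by
  obtain ⟨ψ, d⟩ := (par_ex s).dif
  rw [cyl_image] at d
  have e : Dif (Y ×ˢ Ioo s (s + 1)) (Y' ×ˢ Ioo s (s + 1)) (fun q => (D q.2 q.1, q.2))
      fun q => (D' q.2 q.1, q.2) :=
    ⟨(c.comp (contDiff_snd.prodMk contDiff_fst).contDiffOn fun _ k => ⟨trivial, k.1⟩).prodMk
        contDiffOn_snd,
      (c'.comp (contDiff_snd.prodMk contDiff_fst).contDiffOn fun _ k => ⟨trivial, k.1⟩).prodMk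
        contDiffOn_snd,
      fun _ k => ⟨m _ k.1, k.2⟩, fun _ k => ⟨m' _ k.1, k.2⟩, fun _ k => Prod.ext (i _ _ k.1) rfl,
      fun _ k => Prod.ext (i' _ _ k.1) rfl⟩
  exact ⟨_, e.trans ((Dif.refl Y').prod d)⟩

end Pool.Agent.Lib.MP_b2e238_gt
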