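import Pool.Agent.Lib.MP_b2e238_gt.O.Page

/-! The bridge from surgery on `Y × S¹` to branched double covers of `S⁴`. -/

open scoped ContDiff Topology
open Set Metric

noncomputable section

namespace Pool.Agent.Lib.MP_b2e238_gt

variable {V W : Type} [NormedAddCommGroup V] [NormedSpace ℝ V] [NormedAddCommGroup W]
  [NormedSpace ℝ W]

/-- The local form of a branched double cover at `a`; `Z` is the branch set upstairs. -/
def BrAt (P : Type) [NormedAddCommGroup P] [NormedSpace ℝ P] (A : Set V) (B : Set W) (Z : Set V)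
    (π : V → W) (a : V) : Prop :=
  ∃ (k : ℕ) (φ : P × ℂ → V) (ψ : P × ℂ → W) (U U' : Set (P × ℂ)),
    (k = 1 ∨ k = 2) ∧ Par A φ U ∧ Par B ψ U' ∧ a ∈ φ '' U ∧ ∀ u ∈ U, (u.1, u.2 ^ k) ∈ U' ∧
      π (φ u) = ψ (u.1, u.2 ^ k) ∧ (φ u ∈ Z ↔ k = 2 ∧ u.2 = 0)

/-- `S³` without the pole. -/
abbrev S3o : Set ((ℝ × ℂ) × ℝ) := Sph ℝ \ {(0, 1)}

/-- `S⁴` without the binding. -/
abbrev S4o : Set ((ℝ × ℂ) × ℂ) := {x ∈ Sph ℂ | x.2 ≠ 0}

/-- The tube round the graph of `t ↦ ν' (-t, 0)`. -/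
def T0 (ν' : ℝ × ℂ → V) (u : ℝ × E3) : V × ℂ := (ν' (u.2.2 - u.1, u.2.1), ex u.1)

/-- The double cover of `S2` branched at the poles. -/
def bq (o : E3) : E3 := (1 + o.2 ^ 2)⁻¹ • (o.1 ^ 2, 2 * o.2)

/-- The same with a rescaling of the normal coordinate. -/
def Q1 (c : ℝ) (q : ℂ × E3) : ℂ × E3 := ((c * (1 + q.2.2 ^ 2)) • q.1, bq q.2)

/-- The model of the cover near the binding, on `ℂ × S2`. -/
def Qm (c : ℝ) (q : ℂ × E3) : (ℝ × ℂ) × ℂ := bd (dk (Q1 c q).1, (Q1 c q).2)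

/-- The two points of the surface on the binding. -/
def ends : Set ((ℝ × ℂ) × ℂ) := {((1, 0), 0), ((-1, 0), 0)}

/-- A branched double cover `Π` of `S⁴` off the binding by `M` off the core of `T`, branched along
`F`, in standard form near the core. -/
structure Cov (M : Set V) (T : ℝ × E3 → V) (F : Set ((ℝ × ℂ) × ℂ)) (Pi : V → (ℝ × ℂ) × ℂ) :
    Prop where
  sub : F ⊆ S4o
  maps : MapsTo Pi (M \ core T) S4o
  loc : ∀ m ∈ M \ core T, BrAt ℂ M (Sph ℂ) (Pi ⁻¹' F) Pi m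
  two : ∀ b ∈ S4o \ F, ((M \ core T) ∩ Pi ⁻¹' {b}).ncard = 2
  one : ∀ b ∈ F, ((M \ core T) ∩ Pi ⁻¹' {b}).ncard = 1
  near : ∃ ε > 0, ∀ (t : ℝ) (x : E3), x ≠ 0 → ‖x‖ < ε →
    Pi (T (t, x)) = page t (nrm ((x.2, x.1 ^ 2), 1)) ∧ (Pi (T (t, x)) ∈ F ↔ x.1 = 0)

end Pool.Agent.Lib.MP_b2e238_gt
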