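import Pool.Agent.Lib.MP_b2e238_gt.Z.Defs

/-! The model of the branched double cover near the binding. -/

open scoped ContDiff Topology
open Set Metric

noncomputable section

namespace Pool.Agent.Lib.MP_b2e238_gt

section Qm
variable {c : ℝ}
theorem opn_S3o : Opn S3o (Sph ℝ) :=
  opn_iff.2 ⟨{(0, 1)}ᶜ, isOpen_compl_singleton, rfl⟩
theorem opn_S4o : Opn S4o (Sph ℂ) :=
  opn_iff.2 ⟨{x | x.2 ≠ 0}, isOpen_ne_fun continuous_snd continuous_const, rfl⟩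

theorem qm_norm (o : E3) : ‖(bq o).1‖ = (1 + o.2 ^ 2)⁻¹ * ‖o.1‖ ^ 2 := by
  have p : 0 < (1 + o.2 ^ 2)⁻¹ := by positivity
  simp only [bq, Prod.smul_fst, norm_smul, norm_pow, Real.norm_eq_abs, abs_of_pos p]

theorem qm_snd (o : E3) : (bq o).2 = (1 + o.2 ^ 2)⁻¹ * (2 * o.2) := rfl

theorem bq_mem {o : E3} (ho : o ∈ S2) : bq o ∈ S2 := by
  have h : ‖o.1‖ ^ 2 = 1 - o.2 ^ 2 := eq_sub_of_add_eq ho
  change ‖(bq o).1‖ ^ 2 + (bq o).2 ^ 2 = 1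
  rw [qm_norm, qm_snd, h]
  field_simp
  ring

theorem Qm_page (hc : 0 < c) (t : ℝ) {ρ : ℝ} (h : 0 < ρ) {o : E3} (ho : o ∈ S2) :
    Qm c (ρ * ex t, o) = page t (nrm ((2 * c * ρ * o.2, ((√(c * ρ) : ℝ) * o.1) ^ 2), 1)) := by
  have p : 0 < 1 + o.2 ^ 2 := by positivity
  have k := pg_nrm (ρ := c * (1 + o.2 ^ 2) * ρ) (by positivity) (bq_mem ho) (norm_ex t)
  have e : ((c * (1 + o.2 ^ 2) * ρ) • bq o).swap =
      (2 * c * ρ * o.2, ((√(c * ρ) : ℝ) * o.1) ^ 2) := by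
    have e1 : c * (1 + o.2 ^ 2) * ρ * (1 + o.2 ^ 2)⁻¹ = c * ρ := by field_simp
    rw [bq, smul_smul, e1, mul_pow ((_ : ℝ) : ℂ), ← Complex.ofReal_pow,
      Real.sq_sqrt (by positivity)]
    refine Prod.ext ?_ (Complex.real_smul)
    change c * ρ * (2 * o.2) = 2 * c * ρ * o.2
    ring
  rw [page_eq, ← e, k, Qm, Q1, Complex.real_smul, ← mul_assoc, ← Complex.ofReal_mul]

theorem Qm_mem (hc : 0 < c) (w : ℂ) {o : E3} (ho : o ∈ S2) :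
    Qm c (w, o) ∈ Sph ℂ ∧ ((Qm c (w, o)).2 = 0 ↔ w = 0) := by
  refine ⟨(bind_dif.mF (x := (_, _)) ⟨trivial, bq_mem ho⟩).1, ?_⟩
  simp only [Qm, Q1, bd, nrm_eq, pgQ_bd (bq_mem ho), Prod.smul_snd, dk, smul_smul]
  exact smul_eq_zero_iff_right (by positivity)

theorem qm_zero {o : E3} (ho : o ∈ S2) : Qm c (0, o) = ((bq o).swap, 0) := by
  simp only [Qm, Q1, bd, dk, smul_zero]
  refine nrm_self ?_
  change pgQ ((bq o).swap, (0 : ℂ)) = 1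
  rw [pgQ_bd (bq_mem ho)]
  simp

theorem qm_ends {o : E3} (ho : o ∈ S2) : (o.swap, (0 : ℂ)) ∈ ends ↔ o.1 = 0 := by
  obtain ⟨z, s⟩ := o
  have h : ‖z‖ ^ 2 + s ^ 2 = 1 := ho
  simp only [ends, Prod.swap_prod_mk, mem_insert_iff, mem_singleton_iff, Prod.mk.injEq, and_true]
  refine ⟨fun k => k.elim And.right And.right, fun k => ?_⟩
  rw [k, norm_zero] at h
  exact (sq_eq_one_iff.1 (show s ^ 2 = 1 by linarith)).imp (⟨·, k⟩) (⟨·, k⟩)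

theorem qm_fst {o : E3} : (bq o).1 = 0 ↔ o.1 = 0 := by
  have p : 0 < (1 + o.2 ^ 2)⁻¹ := by positivity
  rw [← norm_eq_zero, qm_norm, mul_eq_zero, or_iff_right p.ne', pow_eq_zero_iff two_ne_zero,
    norm_eq_zero]

theorem Qm_ends (hc : 0 < c) {o : E3} (ho : o ∈ S2) : Qm c (0, o) ∈ ends ↔ o.1 = 0 := by
  rw [qm_zero ho, qm_ends (bq_mem ho), qm_fst]

theorem qm_ht {o : E3} (ho : o ∈ S2) : o.2 = (bq o).2 / (1 + ‖(bq o).1‖) := by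
  have h : ‖o.1‖ ^ 2 = 1 - o.2 ^ 2 := eq_sub_of_add_eq ho
  rw [eq_div_iff (by positivity), qm_norm, qm_snd, h]
  field_simp
  ring

theorem qm_fib {o o' : E3} (ho : o ∈ S2) (ho' : o' ∈ S2) :
    bq o' = bq o ↔ o' = o ∨ o' = (-o.1, o.2) := by
  constructor
  · intro e
    have e2 : o'.2 = o.2 := by rw [qm_ht ho, qm_ht ho', e]
    have e1 : (1 + o'.2 ^ 2)⁻¹ • o'.1 ^ 2 = (1 + o.2 ^ 2)⁻¹ • o.1 ^ 2 := congrArg Prod.fst e
    rw [e2] at e1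
    exact (sq_eq_sq_iff_eq_or_eq_neg.1 (smul_right_injective ℂ (by positivity) e1)).imp
      (Prod.ext · e2) (Prod.ext · e2)
  · rintro (rfl | rfl)
    · rfl
    · simp only [bq, neg_sq]

theorem qm_surj {b : E3} (hb : b ∈ S2) : ∃ o ∈ S2, bq o = b := by
  obtain ⟨y, x⟩ := b
  have h : x ^ 2 = 1 - ‖y‖ ^ 2 := eq_sub_of_add_eq' hb
  have p : 0 < 1 + ‖y‖ := by positivity
  obtain ⟨z, hz⟩ := IsAlgClosed.exists_pow_nat_eq ((2 / (1 + ‖y‖)) • y) two_pos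
  have e : 1 + (x / (1 + ‖y‖)) ^ 2 = 2 / (1 + ‖y‖) := by
    rw [div_pow, h]; field_simp; ring
  refine ⟨(z, x / (1 + ‖y‖)), ?_, ?_⟩
  · change ‖z‖ ^ 2 + (x / (1 + ‖y‖)) ^ 2 = 1
    rw [← norm_pow, hz, norm_smul, Real.norm_eq_abs, abs_of_pos (by positivity), div_pow, h]
    field_simp
    ring
  · simp only [bq, e, hz, Prod.smul_mk, smul_smul, smul_eq_mul]
    refine Prod.ext ?_ ?_
    · rw [inv_mul_cancel₀ (by positivity), one_smul]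
    · field_simp

theorem qm_set {b : (ℝ × ℂ) × ℂ} (hb : b ∈ Sph ℂ) (h0 : b.2 = 0) : ∃ o ∈ S2, Qm c (0, o) = b ∧
    {o | o ∈ S2 ∧ Qm c (0, o) = b} = {o, (-o.1, o.2)} := by
  have h : b.1.1 ^ 2 + ‖b.1.2‖ ^ 2 + ‖b.2‖ ^ 2 = 1 := hb
  rw [h0, norm_zero] at h
  obtain ⟨o, ho, e⟩ := qm_surj (b := b.1.swap) (show ‖b.1.2‖ ^ 2 + b.1.1 ^ 2 = 1 by linarith)
  have k : ∀ o ∈ S2, Qm c (0, o) = b ↔ bq o = b.1.swap := fun o ho => by
    rw [qm_zero ho]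
    exact ⟨fun k => by rw [← k, Prod.swap_swap], fun k => by rw [k, Prod.swap_swap, ← h0]⟩
  have ho' : (-o.1, o.2) ∈ S2 := by
    change ‖-o.1‖ ^ 2 + o.2 ^ 2 = 1
    rw [norm_neg]
    exact ho
  refine ⟨o, ho, (k o ho).2 e, Set.ext fun o' => ⟨fun a => ?_, fun a => ?_⟩⟩
  · exact (qm_fib ho a.1).1 (((k o' a.1).1 a.2).trans e.symm)
  · have m : o' ∈ S2 := a.elim (· ▸ ho) (· ▸ ho')
    exact ⟨m, (k o' m).2 (((qm_fib ho m).2 a).trans e)⟩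

theorem Qm_two (hc : 0 < c) {b : (ℝ × ℂ) × ℂ} (hb : b ∈ Sph ℂ) (h0 : b.2 = 0) (h : b ∉ ends) :
    {o | o ∈ S2 ∧ Qm c (0, o) = b}.ncard = 2 := by
  obtain ⟨o, ho, e, k⟩ := qm_set (c := c) hb h0
  rw [k]
  refine ncard_pair fun a => h (e ▸ (Qm_ends hc ho).2 ?_)
  exact self_eq_neg.1 (congrArg Prod.fst a)

theorem Qm_one (hc : 0 < c) {b : (ℝ × ℂ) × ℂ} (h : b ∈ ends) :
    {o | o ∈ S2 ∧ Qm c (0, o) = b}.ncard = 1 := by
  obtain ⟨o, ho, e, k⟩ := qm_set (c := c) (b := b) (by rcases h with rfl | rfl <;> simp [Sph])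
    (by rcases h with rfl | rfl <;> rfl)
  have z := (Qm_ends hc ho).1 (e ▸ h)
  rw [k, show (-o.1, o.2) = o from Prod.ext (by rw [z, neg_zero]) rfl, pair_eq_singleton,
    ncard_singleton]
end Qm

end Pool.Agent.Lib.MP_b2e238_gt
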