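import Pool.Agent.Lib.MP_b2e238_gt.Z.Defs
import Pool.Agent.Lib.MP_b2e238_gt.K.Ring
import Pool.Agent.Lib.MP_b2e238_gt.K.Srg

/-! Reparametrising a punctured tube. -/

open scoped ContDiff Topology
open Set Metric

noncomputable section

namespace Pool.Agent.Lib.MP_b2e238_gt

variable {V W : Type} [NormedAddCommGroup V] [NormedSpace ℝ V] [NormedAddCommGroup W]
  [NormedSpace ℝ W] [FiniteDimensional ℝ V] [FiniteDimensional ℝ W]

variable {M : Set V} {T : ℝ × E3 → V} {r : ℝ}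

theorem sq_nhds (h : Tb M T r) (t : ℝ) : Par M T (Ioo (t - 1 / 2) (t - 1 / 2 + 1) ×ˢ
    (ball 0 r \ {0})) :=
  (h.2.2 _).mono (isOpen_Ioo.prod (isOpen_ball.sdiff isClosed_singleton))
    (prod_mono Subset.rfl sdiff_subset)

/-- A smooth self map of the punctured disc acts on the punctured tube. -/
theorem sq_map (h : Tb M T r) {k : E3 → E3} (c : ContDiffOn ℝ ∞ k {0}ᶜ)
    (m : MapsTo k (ball 0 r \ {0}) (ball 0 r \ {0})) : ∃ Φ : V → V,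
    ContDiffOn ℝ ∞ Φ (T '' (univ ×ˢ (ball 0 r \ {0}))) ∧
      ∀ t x, ‖x‖ < r → Φ (T (t, x)) = T (t, k x) := by
  let ι := Function.invFunOn T (univ ×ˢ ball 0 r)
  have e : ∀ t x, ‖x‖ < r → T ((ι (T (t, x))).1, k (ι (T (t, x))).2) = T (t, k x) := by
    intro t x hx
    have a : ∃ u ∈ (univ : Set ℝ) ×ˢ ball (0 : E3) r, T u = T (t, x) :=
      ⟨(t, x), ⟨trivial, mem_ball_zero_iff.2 hx⟩, rfl⟩
    obtain ⟨b, n, b'⟩ := h.inj (mem_ball_zero_iff.1 (Function.invFunOn_mem a).2) hx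
      (Function.invFunOn_eq a)
    have b : (ι (T (t, x))).2 = x := b
    have b' : t = (ι (T (t, x))).1 + n := b'
    rw [b]
    conv_rhs => rw [b']
    exact (per_int (c := fun s => T (s, k x)) (fun s => h.2.1 s _) _ n).symm
  refine ⟨fun a => T ((ι a).1, k (ι a).2), ?_, e⟩
  rintro _ ⟨⟨t, x⟩, hx, rfl⟩
  have p := sq_nhds h t
  obtain ⟨ψ, d⟩ := p.dif
  have mem : T (t, x) ∈ T '' (Ioo (t - 1 / 2) (t - 1 / 2 + 1) ×ˢ (ball 0 r \ {0})) :=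
    ⟨(t, x), ⟨by constructor <;> linarith, hx.2⟩, rfl⟩
  have s := h.smooth.comp (d.cG.fst.prodMk (c.comp d.cG.snd fun a ha => (d.mG ha).2.2))
    fun a ha => ⟨trivial, (m (d.mG ha).2).1⟩
  refine ((s.congr fun a ha => ?_) _ mem).mono_of_mem_nhdsWithin
    (nhdsWithin_mono _ ?_ (p.opn.2 _ mem))
  · conv_lhs => rw [← d.fg a ha]
    exact e _ _ (mem_ball_zero_iff.1 (d.mG ha).2.1)
  · rintro _ ⟨u, hu, rfl⟩
    exact h.mem u.1 (mem_ball_zero_iff.1 hu.2.1)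

theorem Surg.squeeze {M : Set V} {X : Set W} {T : ℝ × E3 → V} {r r₁ : ℝ} (z : Surg M T X)
    (h : Tb M T r) {k k' : E3 → E3} (d : Dif {0}ᶜ {0}ᶜ k k') (k0 : k 0 = 0) (a : r₁ < r)
    (e : ∀ x, r₁ ≤ ‖x‖ → k x = x) : Surg M (fun u => T (u.1, k u.2)) X := by
  classical
  have e' : ∀ x, x ≠ 0 → r₁ ≤ ‖x‖ → k' x = x := fun x x0 hx => by
    conv_lhs => rw [← e x hx]
    exact d.gf x x0
  have m : MapsTo k (ball 0 r \ {0}) (ball 0 r \ {0}) := fun x hx => ⟨by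
    by_contra n
    have b : r ≤ ‖k x‖ := not_lt.1 fun b => n (mem_ball_zero_iff.2 b)
    have := e' _ (d.mF hx.2) (a.le.trans b)
    rw [d.gf x hx.2] at this
    exact n (this ▸ hx.1), d.mF hx.2⟩
  have m' : MapsTo k' (ball 0 r \ {0}) (ball 0 r \ {0}) := fun x hx => ⟨by
    by_contra n
    have b : r ≤ ‖k' x‖ := not_lt.1 fun b => n (mem_ball_zero_iff.2 b)
    have := e _ (a.le.trans b)
    rw [d.fg x hx.2] at this
    exact n (this ▸ hx.1), d.mG hx.2⟩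
  obtain ⟨Φ, cΦ, eΦ⟩ := sq_map h d.cG m'
  obtain ⟨Ψ, cΨ, eΨ⟩ := sq_map h d.cF m
  set A := T '' (univ ×ˢ (ball 0 r \ {0}))
  have n : ∀ {u : ℝ × E3}, u ∈ (univ : Set ℝ) ×ˢ (ball (0 : E3) r \ {0}) → ‖u.2‖ < r :=
    fun k => mem_ball_zero_iff.1 k.2.1
  have D : Dif A A Φ Ψ := by
    refine ⟨cΦ, cΨ, ?_, ?_, ?_, ?_⟩ <;> rintro _ ⟨⟨t, x⟩, hx, rfl⟩
    · exact ⟨(t, k' x), ⟨trivial, m' hx.2⟩, (eΦ t x (n hx)).symm⟩
    · exact ⟨(t, k x), ⟨trivial, m hx.2⟩, (eΨ t x (n hx)).symm⟩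
    · rw [eΦ t x (n hx), eΨ t _ (mem_ball_zero_iff.1 (m' hx.2).1), d.fg x hx.2.2]
    · rw [eΨ t x (n hx), eΦ t _ (mem_ball_zero_iff.1 (m hx.2).1), d.gf x hx.2.2]
  have o : Opn A (M \ core T) := by
    refine ⟨?_, ?_⟩ <;> rintro _ ⟨⟨t, x⟩, hx, rfl⟩
    · exact ⟨h.mem t (n hx), fun ⟨t', k⟩ => hx.2.2 (h.inj (by simpa using h.1) (n hx) k).1.symm⟩
    · exact nhdsWithin_mono _ sdiff_subset (Filter.mem_of_superset ((sq_nhds h t).opn.2 _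
        ⟨(t, x), ⟨by constructor <;> linarith, hx.2⟩, rfl⟩)
        (image_mono (prod_mono (subset_univ _) Subset.rfl)))
  have C : IsCompact (T '' (Icc 0 1 ×ˢ closedBall 0 r₁)) :=
    (isCompact_Icc.prod (isCompact_closedBall _ _)).image_of_continuousOn
      (h.smooth.continuousOn.mono (prod_mono (subset_univ _) (closedBall_subset_ball a)))
  have x := D.extend (K := T '' (univ ×ˢ (closedBall 0 r₁ \ {0}))) o
    (image_mono (prod_mono Subset.rfl (sdiff_subset_sdiff_left (closedBall_subset_ball a))))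
    (opn_iff.2 ⟨_, C.isClosed.isOpen_compl, ?_⟩) ?_
  · have co : core (fun u : ℝ × E3 => T (u.1, k u.2)) = core T := by simp [core, k0]
    refine z.of_dif (by rw [co]; exact x) h.1 fun t y y0 hy => ?_
    have b := m ⟨mem_ball_zero_iff.2 hy, y0⟩
    have q : T (t, k y) ∈ A := ⟨(t, k y), ⟨trivial, b⟩, rfl⟩
    rw [piecewise_eq_of_mem _ _ _ q, eΦ t _ (mem_ball_zero_iff.1 b.1), d.gf y y0]
  · ext b
    refine and_congr_right fun hb => not_congr ⟨?_, ?_⟩ <;> rintro ⟨⟨t, y⟩, hy, rfl⟩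
    · refine ⟨(Int.fract t, y), ⟨⟨Int.fract_nonneg t, (Int.fract_lt_one t).le⟩, hy.2.1⟩, ?_⟩
      rw [← per_int (c := fun s => T (s, y)) (fun s => h.2.1 s _) _ ⌊t⌋, Int.fract_add_floor]
    · exact ⟨(t, y), ⟨trivial, hy.2, fun k => hb.2 ⟨t, by rw [show y = 0 from k]⟩⟩, rfl⟩
  · rintro _ ⟨⟨⟨t, y⟩, hy, rfl⟩, k⟩
    rw [eΦ t y (n hy), e' y hy.2.2 (not_lt.1 fun b => k ⟨(t, y),
      ⟨trivial, mem_closedBall_zero_iff.2 b.le, hy.2.2⟩, rfl⟩)]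

end Pool.Agent.Lib.MP_b2e238_gt
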