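import Pool.Agent.Lib.MP_b2e238_gt.Z.Qb
import Pool.Agent.Lib.MP_b2e238_gt.Z.Qm
import Pool.Agent.Lib.MP_b2e238_gt.Z.Sq
import Pool.Agent.Lib.MP_b2e238_gt.Z.Kap
import Pool.Agent.Lib.MP_b2e238_gt.K.Ring

/-! Closing up the cover over the binding. -/

open scoped ContDiff Topology
open Set Metric

noncomputable section

namespace Pool.Agent.Lib.MP_b2e238_gt

variable {V W : Type} [NormedAddCommGroup V] [NormedSpace ℝ V] [NormedAddCommGroup W]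
  [NormedSpace ℝ W] [FiniteDimensional ℝ V] [FiniteDimensional ℝ W]

theorem glue_core {M : Set V} {T : ℝ × E3 → V} {r : ℝ} (h : Tb M T r) : IsCompact (core T) := by
  have c : Continuous fun t : ℝ => T (t, 0) :=
    h.smooth.continuousOn.comp_continuous (by fun_prop) fun t => ⟨trivial, mem_ball_self h.1⟩
  exact Function.Periodic.compact_of_continuous (c := 1) (fun t => h.2.1 t 0) one_ne_zero c

theorem glue_ends {b : (ℝ × ℂ) × ℂ} (h : b ∈ ends) : b.2 = 0 := by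
  rcases h with rfl | rfl <;> rfl

theorem Cov.glue {M : Set V} {T : ℝ × E3 → V} {r : ℝ} {F : Set ((ℝ × ℂ) × ℂ)}
    {Pi : V → (ℝ × ℂ) × ℂ} {X : Set W} (h : Cov M T F Pi) (hT : Tb M T r) (z : Surg M T X) :
    ∃ π : W → (ℝ × ℂ) × ℂ, Br ℂ X (Sph ℂ) (F ∪ ends) π := by
  classical
  obtain ⟨ε₁, p₁, near⟩ := h.near
  obtain ⟨k, k', L, c, ε, hc, hε, dk, k0, k1, kL⟩ := exists_kap (half_pos hT.1)
  obtain ⟨r₂, N, e, e', G, G', p₂, oN, de, dG, eq⟩ :=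
    (z.squeeze hT dk k0 (half_lt_self hT.1) k1).lin L
  have co : core (fun u : ℝ × E3 => T (u.1, k (L u.2))) = core T := by simp [core, k0]
  change Dif (M \ core fun u : ℝ × E3 => T (u.1, k (L u.2))) _ _ _ at dG
  rw [co] at dG
  set S := e '' ({0} ×ˢ S2)
  let π : W → (ℝ × ℂ) × ℂ := fun x => if x ∈ S then Qm c (e' x) else Pi (G' x)
  have z0 : ∀ o ∈ S2, ((0, o) : ℂ × E3) ∈ ball (0 : ℂ) r₂ ×ˢ S2 := fun o ho =>
    ⟨mem_ball_self p₂, ho⟩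
  have π0 : ∀ o ∈ S2, π (e (0, o)) = Qm c (0, o) := fun o ho => by
    simp only [π]
    rw [if_pos ⟨(0, o), ⟨rfl, ho⟩, rfl⟩, de.gf _ (z0 o ho)]
  have π1 : ∀ m ∈ M \ core T, π (G m) = Pi m := fun m hm => by
    simp only [π]
    rw [if_neg (dG.mF hm).2, dG.gf m hm]
  obtain ⟨a, pa, a1, a2⟩ : ∃ a, 0 < a ∧ a ≤ ε₁ ∧ a ≤ r :=
    ⟨min ε₁ r, lt_min p₁ hT.1, min_le_left _ _, min_le_right _ _⟩
  obtain ⟨δ, pδ, d1, d2, d3, d4⟩ : ∃ δ, 0 < δ ∧ δ ≤ r₂ ∧ δ ≤ ε ∧ δ ≤ a ^ 2 / c ∧ δ ≤ a / (2 * c) :=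
    ⟨min (min r₂ ε) (min (a ^ 2 / c) (a / (2 * c))), by positivity,
      (min_le_left _ _).trans (min_le_left _ _), (min_le_left _ _).trans (min_le_right _ _),
      (min_le_right _ _).trans (min_le_left _ _), (min_le_right _ _).trans (min_le_right _ _)⟩
  have key : ∀ q ∈ ball (0 : ℂ) δ ×ˢ S2,
      π (e q) = Qm c q ∧ (e q ∈ π ⁻¹' (F ∪ ends) ↔ q ∈ {q : ℂ × E3 | q.2.1 = 0}) := by
    rintro ⟨w, o⟩ ⟨hw, ho⟩
    rw [mem_preimage]
    by_cases w0 : w = 0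
    · subst w0
      rw [π0 o ho]
      refine ⟨rfl, Iff.trans ⟨fun k => k.resolve_left fun k => (h.sub k).2 ?_, .inr⟩ (Qm_ends hc ho)⟩
      exact (Qm_mem hc 0 ho).2.2 rfl
    have ρ0 : 0 < ‖w‖ := norm_pos_iff.2 w0
    have ρ1 : ‖w‖ < δ := mem_ball_zero_iff.1 hw
    obtain ⟨t, ht⟩ : ∃ t, w = ‖w‖ * ex t := ⟨_, by
      rw [ex_arg (w := w / ‖w‖) (by simp [ρ0.ne'])]
      exact (mul_div_cancel₀ _ (Complex.ofReal_ne_zero.2 ρ0.ne')).symm⟩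
    have s0 : 0 < √(c * ‖w‖) := by positivity
    have e1 := eq t ‖w‖ o ρ0 (ρ1.trans_le d1) ho
    have e2 := kL ‖w‖ o ρ0 (ρ1.trans_le d2) ho
    simp only [e2, ← ht] at e1
    set x : E3 := ((√(c * ‖w‖) : ℝ) * o.1, 2 * c * ‖w‖ * o.2) with hx
    have x1 : x.1 = 0 ↔ o.1 = 0 := mul_eq_zero_iff_left (Complex.ofReal_ne_zero.2 s0.ne')
    have x0 : x ≠ 0 := fun k => (S2.norm_le ho).2 (Prod.ext (x1.1 (congrArg Prod.fst k)) (by
      have : 2 * c * ‖w‖ * o.2 = 0 := congrArg Prod.snd k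
      simpa [hc.ne', ρ0.ne'] using this))
    have xa : ‖x‖ < a := by
      have n1 : ‖o.1‖ ≤ 1 := (norm_fst_le o).trans (S2.norm_le ho).1
      have n2 : ‖o.2‖ ≤ 1 := (norm_snd_le o).trans (S2.norm_le ho).1
      have b1 : √(c * ‖w‖) < a := Real.sqrt_lt' pa |>.2 (by
        have := (lt_div_iff₀ hc).1 (ρ1.trans_le d3); linarith)
      have b2 : 2 * c * ‖w‖ < a := by
        have := (lt_div_iff₀ (by positivity)).1 (ρ1.trans_le d4); linarith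
      rw [Prod.norm_def, max_lt_iff, hx]
      simp only [norm_mul (_ : ℂ), norm_mul (2 * c * ‖w‖), Complex.norm_real]
      rw [Real.norm_of_nonneg s0.le, Real.norm_of_nonneg (by positivity)]
      exact ⟨(mul_le_of_le_one_right s0.le n1).trans_lt b1,
        (mul_le_of_le_one_right (by positivity) n2).trans_lt b2⟩
    have m : T (t, x) ∈ M \ core T := ⟨hT.mem t (xa.trans_le a2), fun ⟨t', k⟩ =>
      x0 (hT.inj (by simpa using hT.1) (xa.trans_le a2) k).1.symm⟩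
    obtain ⟨n1, n2⟩ := near t x x0 (xa.trans_le a1)
    rw [← e1, π1 _ m]
    refine ⟨?_, Iff.trans ⟨fun k => k.resolve_right fun k => (h.maps m).2 (glue_ends k), .inl⟩
      (n2.trans x1)⟩
    rw [n1, ht, Qm_page hc t ρ0 ho]
  have f1 : ∀ b : (ℝ × ℂ) × ℂ, b.2 ≠ 0 →
      (X ∩ π ⁻¹' {b}).ncard = ((M \ core T) ∩ Pi ⁻¹' {b}).ncard := fun b hb => by
    rw [← (dG.injOn.mono (inter_subset_left (t := Pi ⁻¹' {b}))).ncard_image]
    congr 1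
    ext x
    constructor
    · rintro ⟨k, rfl⟩
      have n : x ∉ S := by
        rintro ⟨⟨w, o⟩, ⟨rfl : w = 0, ho⟩, rfl⟩
        exact hb (by rw [π0 o ho]; exact (Qm_mem hc 0 ho).2.2 rfl)
      exact ⟨G' x, ⟨dG.mG ⟨k, n⟩, (if_neg n).symm⟩, dG.fg x ⟨k, n⟩⟩
    · rintro ⟨m, k, rfl⟩
      exact ⟨(dG.mF k.1).1, (π1 m k.1).trans k.2⟩
  have f0 : ∀ b : (ℝ × ℂ) × ℂ, b.2 = 0 →
      (X ∩ π ⁻¹' {b}).ncard = {o | o ∈ S2 ∧ Qm c (0, o) = b}.ncard := fun b hb => by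
    have i : InjOn (fun o => e (0, o)) {o | o ∈ S2 ∧ Qm c (0, o) = b} := fun o ho o' ho' k =>
      congrArg Prod.snd (de.injOn (z0 o ho.1) (z0 o' ho'.1) k)
    rw [← i.ncard_image]
    congr 1
    ext x
    constructor
    · rintro ⟨k, rfl⟩
      by_cases n : x ∈ S
      · obtain ⟨⟨w, o⟩, ⟨rfl : w = 0, ho⟩, rfl⟩ := n
        exact ⟨o, ⟨ho, (π0 o ho).symm⟩, rfl⟩
      · refine ((h.maps (dG.mG ⟨k, n⟩)).2 ?_).elim
        rwa [show π x = Pi (G' x) from if_neg n] at hb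
    · rintro ⟨o, k, rfl⟩
      exact ⟨oN.1 (de.mF (z0 o k.1)), (π0 o k.1).trans k.2⟩
  refine ⟨π, br_of_brAt (fun b hb => ?_) (fun b hb => ?_) fun x hx => ?_⟩
  · by_cases b0 : b.2 = 0
    · rw [f0 b b0]
      exact Qm_two hc hb.1 b0 fun k => hb.2 (.inr k)
    · rw [f1 b b0]
      exact h.two b ⟨⟨hb.1, b0⟩, fun k => hb.2 (.inl k)⟩
  · rcases hb with hb | hb
    · rw [f1 b (h.sub hb).2]
      exact h.one b hb
    · rw [f0 b (glue_ends hb)]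
      exact Qm_one hc hb
  by_cases n : x ∈ S
  · obtain ⟨⟨w, o⟩, ⟨rfl : w = 0, ho⟩, rfl⟩ := n
    have o1 : Opn (ball (0 : ℂ) δ ×ˢ S2) (univ ×ˢ S2) := (opn_univ.2 isOpen_ball).prod (.refl _)
    have o2 : Opn (ball (0 : ℂ) δ ×ˢ S2) (ball 0 r₂ ×ˢ S2) :=
      Opn.prod (opn_iff.2 ⟨_, isOpen_ball, (inter_eq_right.2 (ball_subset_ball d1)).symm⟩) (.refl _)
    exact (Qm_brAt hc 0 ho).map (de.mono o2.1) o1 ((de.opn o2).trans oN) (Dif.refl _) (.refl _)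
      (.refl _) ⟨mem_ball_self pδ, ho⟩ (fun q hq => (Qm_mem hc q.1 hq.2).1) key
  · have cS : IsCompact S := (isCompact_singleton.prod isCompact_S2).image_of_continuousOn
      (de.cF.continuousOn.mono (prod_mono (singleton_subset_iff.2 (mem_ball_self p₂)) Subset.rfl))
    rw [← dG.fg x ⟨hx, n⟩]
    refine (h.loc _ (dG.mG ⟨hx, n⟩)).map dG
      (opn_iff.2 ⟨_, (glue_core hT).isClosed.isOpen_compl, rfl⟩)
      (opn_iff.2 ⟨_, cS.isClosed.isOpen_compl, rfl⟩) (Dif.refl _) (.refl _) (.refl _)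
      (dG.mG ⟨hx, n⟩) (fun m hm => (h.maps hm).1) fun m hm => ⟨π1 m hm, ?_⟩
    rw [mem_preimage, π1 m hm]
    exact ⟨fun k => k.resolve_right fun k => (h.maps hm).2 (glue_ends k), .inl⟩

end Pool.Agent.Lib.MP_b2e238_gt
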