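import Pool.Agent.Lib.MP_b2e238_gt.Z.Pre
import Pool.Agent.Lib.MP_b2e238_gt.Z.Cyl
import Pool.Agent.Lib.MP_b2e238_gt.Z.Qm

/-! The branched double cover off the binding. -/

open scoped ContDiff Topology
open Set Metric

noncomputable section

namespace Pool.Agent.Lib.MP_b2e238_gt

variable {V : Type} [NormedAddCommGroup V] [NormedSpace ℝ V] [FiniteDimensional ℝ V]

section Main
variable {Y : Set V} {p : V → (ℝ × ℂ) × ℝ} {ν' : ℝ × ℂ → V} {ν : ℝ × ℂ → (ℝ × ℂ) × ℝ} {β : ℝ → ℝ}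
  {ρ : (ℝ × ℂ) × ℝ → (ℝ × ℂ) × ℝ} {f : ℝ → (ℝ × ℂ) × ℝ → (ℝ × ℂ) × ℝ}

theorem zpi_nrm : nrm (((0 : ℝ × ℂ), 1) : (ℝ × ℂ) × ℝ) = (0, 1) := nrm_self (by simp [Sph])

theorem zpi_S1 (t : ℝ) : ex t ∈ sphere (0 : ℂ) 1 := mem_sphere_zero_iff_norm.2 (norm_ex t)

theorem zpi_opn {W : Type} [NormedAddCommGroup W] [NormedSpace ℝ W] (A : Set W) (a : W) :
    Opn (A \ {a}) A :=
  opn_iff.2 ⟨{a}ᶜ, isOpen_compl_singleton, rfl⟩

/-- The trivialisation acts on the sphere without the pole. -/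
theorem zpi_triv (hf : Triv ρ f) : ∃ g : ℝ → (ℝ × ℂ) × ℝ → (ℝ × ℂ) × ℝ,
    ContDiff ℝ ∞ f.uncurry ∧ ContDiff ℝ ∞ g.uncurry ∧ (∀ t, MapsTo (f t) S3o S3o) ∧
      (∀ t, MapsTo (g t) S3o S3o) ∧ (∀ t, ∀ y ∈ S3o, g t (f t y) = y) ∧
        ∀ t, ∀ y ∈ S3o, f t (g t y) = y := by
  obtain ⟨g, a, b, c, d⟩ := hf
  have e := c.self_of_nhds
  have o : ((0, 1) : (ℝ × ℂ) × ℝ) ∈ Sph ℝ := by simp [Sph]
  refine ⟨g, a, b, fun t y h => ⟨(d t y h.1).1, fun k => h.2 ?_⟩,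
    fun t y h => ⟨(d t y h.1).2.1, fun k => h.2 ?_⟩, fun t y h => (d t y h.1).2.2.1,
    fun t y h => (d t y h.1).2.2.2.1⟩
  · rw [← (d t y h.1).2.2.1, show f t y = f t (0, 1) from k.trans (e t).symm]
    exact (d t _ o).2.2.1
  · rw [← (d t y h.1).2.2.2.1, show g t y = (0, 1) from k]
    exact e t

theorem zpi_inj {s t : ℝ} {y y' : (ℝ × ℂ) × ℝ} (h : y ∈ S3o) (h' : y' ∈ S3o)
    (e : page s y = page t y') : y = y' ∧ ex s = ex t :=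
  Prod.ext_iff.1 (page_dif.injOn (x₁ := (y, ex s)) (x₂ := (y', ex t)) ⟨h, zpi_S1 s⟩
    ⟨h', zpi_S1 t⟩ e)

theorem zpi_knot (hν : Tube (Sph ℝ) ν 4) (n0 : ν (0, 0) = (0, 1)) {s : ℝ}
    (h : s ∈ Ioo (0 : ℝ) 1) : ν (s, 0) ∈ S3o := by
  refine ⟨hν.mem s (by simp), fun k => ?_⟩
  obtain ⟨-, n, e⟩ := hν.inj (by simp) (by simp) (n0.trans (Eq.symm k))
  rw [e, zero_add] at h
  have a : (0 : ℤ) < n := by exact_mod_cast h.1
  have b : n < 1 := by exact_mod_cast h.2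
  omega

/-- The spun surface meets each page in the knotted arc. -/
theorem zpi_mem (hν : Tube (Sph ℝ) ν 4) (n0 : ν (0, 0) = (0, 1))
    (fix : ∀ s, ρ (ν (s, 0)) = ν (s, 0)) (hf : Triv ρ f) (τ : ℝ) {y : (ℝ × ℂ) × ℝ} (h : y ∈ S3o) :
    page τ (f τ y) ∈ {x | ∃ t s, s ∈ Ioo (0 : ℝ) 1 ∧ x = page t (f t (ν (s, 0)))} ↔
      y ∈ range fun t => ν (t, 0) := by
  obtain ⟨g, -, -, a, -, b, -⟩ := zpi_triv hf
  obtain ⟨_, -, -, -, d⟩ := hf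
  refine ⟨fun ⟨t, s, hs, e⟩ => ⟨s, ?_⟩, fun ⟨s, e⟩ => ⟨τ, Int.fract s,
    ⟨(Int.fract_nonneg s).lt_of_ne fun k => h.2 ?_, Int.fract_lt_one s⟩, ?_⟩⟩
  · have m := zpi_knot hν n0 hs
    obtain ⟨e1, e2⟩ := zpi_inj (a _ h) (a _ m) e
    obtain ⟨k, rfl⟩ := ex_eq e2
    rw [per_int (c := fun t => f t (ν (s, 0))) (fun t => by
      rw [(d t _ m.1).2.2.2.2, fix])] at e1
    exact (b τ _ m).symm.trans ((congrArg (g τ) e1.symm).trans (b τ _ h))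
  · rw [← e, ← Int.fract_add_floor s, ← k]
    exact (hν.int 0 0 _).trans n0
  · rw [← hν.int, Int.fract_add_floor, ← e]

theorem exists_cov (hp : Br ℝ Y (Sph ℝ) (range fun t => ν (t, 0)) p) (hν' : Tube Y ν' 2)
    (hν : Tube (Sph ℝ) ν 4) (lift : ∀ t z, ‖z‖ < 2 → p (ν' (t, z)) = ν (t, z ^ 2))
    (pole : ∀ᶠ u in 𝓝 0, ν u = nrm (u, 1)) (hβ : ContDiff ℝ ∞ β) (β0 : ∀ r ≤ 1, β r = 0)
    (β1 : ∀ r ≥ 3, β r = 1) (ρ1 : ∀ t z, ‖z‖ < 4 → ρ (ν (t, z)) = ν (t + β ‖z‖, z))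
    (ρ2 : ∀ y ∉ ν '' {u | ‖u.2‖ < 4}, ρ y = y) (hf : Triv ρ f) :
    ∃ Pi, Cov (Y ×ˢ sphere (0 : ℂ) 1) (T0 ν')
      {x | ∃ t s, s ∈ Ioo (0 : ℝ) 1 ∧ x = page t (f t (ν (s, 0)))} Pi := by
  obtain ⟨D, Dc, Dm, D0, Da, Dt, Dp⟩ := exists_drag hp hν' hν lift hβ β0 β1 ρ1 ρ2
  have n0 : ν (0, 0) = (0, 1) := pole.self_of_nhds.trans zpi_nrm
  have mem := fun τ y => zpi_mem hν n0
    (fun s => by simpa [β0 0 zero_le_one] using ρ1 s 0 (by simp)) hf τ (y := y)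
  obtain ⟨g, fc, gc, fm, gm, gf, fg⟩ := zpi_triv hf
  obtain ⟨_, -, -, fp, d⟩ := hf
  have DD : ∀ τ a, D (-τ) (D τ a) = a := fun τ a => by rw [Da, neg_add_cancel, D0]
  have DD' : ∀ τ a, D τ (D (-τ) a) = a := fun τ a => by rw [Da, add_neg_cancel, D0]
  have a0 : ν' (0, 0) ∈ Y := hν'.mem 0 (by simp)
  have p0 : p (ν' (0, 0)) = ν (0, 0) := by simpa using lift 0 0 (by simp)
  have pm : MapsTo p (Y \ {ν' (0, 0)}) S3o := fun a h => ⟨hp.mapsTo h.1, fun k =>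
    h.2 (hp.uniq a0 h.1 ⟨0, p0.symm⟩ ((Eq.trans k n0.symm).trans p0.symm))⟩
  have co : ∀ τ a, (D τ a, ex τ) ∈ core (T0 ν') ↔ a = ν' (0, 0) := fun τ a => by
    refine ⟨fun ⟨t, e⟩ => ?_, fun e => ⟨τ, by rw [e, Dt τ 0 0 (by simp)]; rfl⟩⟩
    obtain ⟨k, rfl⟩ := ex_eq (congrArg Prod.snd e)
    have e' : ν' (0 - t, 0) = D (t + k) a := congrArg Prod.fst e
    rw [← DD (t + k) a, ← e', Dt _ _ _ (by simp), show 0 - t - -(t + k) = 0 + (k : ℝ) by ring,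
      hν'.int]
  have rep : ∀ m ∈ (Y ×ˢ sphere (0 : ℂ) 1) \ core (T0 ν'), ∀ τ, ex τ = m.2 →
      ∃ a ∈ Y \ {ν' (0, 0)}, (D τ a, ex τ) = m := fun m h τ e => by
    have k : (D τ (D (-τ) m.1), ex τ) = m := by rw [DD', e]
    exact ⟨_, ⟨Dm _ h.1.1, fun z => h.2 (k ▸ (co τ _).2 z)⟩, k⟩
  have rep' := fun m h => rep m h _ (ex_arg (mem_sphere_zero_iff_norm.1 h.1.2))
  obtain ⟨Pi, hPi⟩ : ∃ Pi : V × ℂ → (ℝ × ℂ) × ℂ, ∀ τ, ∀ a ∈ Y,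
      Pi (D τ a, ex τ) = page τ (f τ (p a)) := by
    refine ⟨fun m => (fun σ => page σ (f σ (p (D (-σ) m.1)))) (m.2.arg / (2 * Real.pi)),
      fun τ a h => ?_⟩
    obtain ⟨k, e⟩ := ex_eq (ex_arg (norm_ex τ))
    refine (per_int (c := fun σ => page σ (f σ (p (D (-σ) (D τ a))))) (fun σ => ?_) _ k).symm.trans
      (by simp only [← e, DD])
    have m := Dm (-(σ + 1)) (Dm τ h)
    rw [page_eq, page_eq, ex_one, (d σ _ (hp.mapsTo m)).2.2.2.2, ← Dp _ m, Da 1,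
      show 1 + -(σ + 1) = -σ by ring]
  have fib : ∀ τ, ∀ y ∈ S3o, (((Y ×ˢ sphere (0 : ℂ) 1) \ core (T0 ν')) ∩
      Pi ⁻¹' {page τ (f τ y)}).ncard = (Y ∩ p ⁻¹' {y}).ncard := fun τ y h => by
    rw [← ncard_image_of_injective (Y ∩ p ⁻¹' {y}) (f := fun a => (D τ a, ex τ)) fun a b e =>
      (DD τ a).symm.trans ((congrArg (fun m => D (-τ) m.1) e).trans (DD τ b))]
    congr 1
    refine subset_antisymm ?_ ?_
    · rintro m ⟨h1, h2⟩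
      obtain ⟨a, ha, e⟩ := rep' m h1
      have k := (zpi_inj (fm _ (pm ha)) (fm _ h) ((hPi _ a ha.1).symm.trans (e.symm ▸ h2))).2
      obtain ⟨b, hb, rfl⟩ := rep m h1 τ (k.symm.trans (congrArg Prod.snd e))
      have k' := (zpi_inj (fm _ (pm hb)) (fm _ h) ((hPi _ b hb.1).symm.trans h2)).1
      exact ⟨b, ⟨hb.1, (gf τ _ (pm hb)).symm.trans ((congrArg (g τ) k').trans (gf τ _ h))⟩, rfl⟩
    · rintro _ ⟨a, ⟨h1, rfl⟩, rfl⟩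
      exact ⟨⟨⟨Dm τ h1, zpi_S1 τ⟩, fun k => h.2 (by rw [(co τ a).1 k, p0, n0]; rfl)⟩, hPi τ a h1⟩
  refine ⟨Pi, ?_, fun m h => ?_, fun m h => ?_, fun b h => ?_, ?_, ?_⟩
  · rintro _ ⟨t, s, h, rfl⟩
    exact page_dif.mF (x := (_, ex t)) ⟨fm t (zpi_knot hν n0 h), zpi_S1 t⟩
  · obtain ⟨a, ha, e⟩ := rep' m h
    rw [← e, hPi _ a ha.1]
    exact page_dif.mF (x := (_, ex _)) ⟨fm _ (pm ha), zpi_S1 _⟩
  · obtain ⟨a, ha, e⟩ := rep' m h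
    generalize m.2.arg / (2 * Real.pi) = τ at e
    subst e
    obtain ⟨G, d1⟩ := cyl (D' := fun τ => D (-τ)) Dc
      (Dc.comp (contDiff_fst.neg.prodMk contDiff_snd).contDiffOn fun _ k => ⟨trivial, k.2⟩) Dm
      (fun τ => Dm (-τ)) (fun τ a _ => DD τ a) (fun τ a _ => DD' τ a) (τ - 1 / 2)
    obtain ⟨G', d2⟩ := cyl (Y := S3o) fc.contDiffOn gc.contDiffOn fm gm gf fg (τ - 1 / 2)
    have o1 : Opn (Ioo (τ - 1 / 2) (τ - 1 / 2 + 1)) univ := opn_univ.2 isOpen_Ioo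
    have o2 := zpi_opn (sphere (0 : ℂ) 1) (ex (τ - 1 / 2))
    have o3 := (zpi_opn Y (ν' (0, 0))).prod (Opn.refl (Ioo (τ - 1 / 2) (τ - 1 / 2 + 1)))
    have o4 := (Opn.refl S3o).prod o2
    exact ((hp.brAt ha.1).prod τ).map (d1.mono o3.1) ((zpi_opn _ _).prod o1)
      ((d1.opn o3).trans ((Opn.refl Y).prod o2)) (d2.trans (page_dif.mono o4.1))
      (opn_S3o.prod o1) ((page_dif.opn o4).trans opn_S4o) ⟨ha, by constructor <;> linarith⟩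
      (fun x k => ⟨pm k.1, k.2⟩) fun x k => ⟨hPi _ _ k.1.1, by
        rw [mem_preimage, hPi _ _ k.1.1, mem _ _ (pm k.1)]
        exact ⟨fun z => ⟨z, trivial⟩, fun z => z.1⟩⟩
  · have m := page_dif.mG h.1
    have e : b = page ((pg' b).2.arg / (2 * Real.pi)) (f ((pg' b).2.arg / (2 * Real.pi))
        (g ((pg' b).2.arg / (2 * Real.pi)) (pg' b).1)) := by
      rw [fg _ _ m.1, page_eq, ex_arg (mem_sphere_zero_iff_norm.1 m.2)]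
      exact (page_dif.fg b h.1).symm
    have k := gm ((pg' b).2.arg / (2 * Real.pi)) m.1
    rw [e, fib _ _ k]
    exact hp.1 _ ⟨k.1, fun z => h.2 (e ▸ (mem _ _ k).2 z)⟩
  · rintro _ ⟨t, s, h, rfl⟩
    rw [fib _ _ (zpi_knot hν n0 h)]
    exact hp.2.1 _ ⟨s, rfl⟩
  · have j : Filter.Tendsto (fun x : E3 => (x.2, x.1 ^ 2)) (𝓝 0) (𝓝 0) :=
      Continuous.tendsto' (by fun_prop) _ _ (by simp)
    have j' : Filter.Tendsto (fun x : E3 => nrm (((x.2, x.1 ^ 2), 1) : (ℝ × ℂ) × ℝ)) (𝓝 0)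
        (𝓝 (0, 1)) := zpi_nrm ▸ (contDiffAt_nrm sqR (by simp [pgQ])).continuousAt.tendsto.comp
      (j.prodMk_nhds tendsto_const_nhds)
    obtain ⟨ε, e0, e⟩ := eventually_nhds_iff_ball.1
      (((j.eventually pole).and (j'.eventually fp)).and (ball_mem_nhds 0 one_pos))
    refine ⟨ε, e0, fun t x x0 hx => ?_⟩
    obtain ⟨⟨e1, e2⟩, e3⟩ := e x (mem_ball_zero_iff.2 hx)
    have n1 : ‖x.1‖ < 1 := (norm_fst_le x).trans_lt (mem_ball_zero_iff.1 e3)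
    have n2 : |x.2| < 1 := (norm_snd_le x).trans_lt (mem_ball_zero_iff.1 e3)
    have n3 : ‖x.1 ^ 2‖ < 4 := by rw [norm_pow]; nlinarith [norm_nonneg x.1]
    have k : Pi (T0 ν' (t, x)) = page t (f t (ν (x.2, x.1 ^ 2))) := by
      rw [← lift _ _ (by linarith), ← hPi t _ (hν'.mem _ (by linarith)), Dt _ _ _ n1.le]; rfl
    refine ⟨by rw [k, e1, e2], ?_⟩
    rw [k, mem _ _ ⟨hν.mem _ n3, fun z => x0 ?_⟩]
    · exact ⟨fun ⟨s, z⟩ => pow_eq_zero_iff two_ne_zero |>.1 (hν.inj (by simp) n3 z).1.symm,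
        fun z => ⟨x.2, by simp [z]⟩⟩
    · obtain ⟨z1, n, z2⟩ := hν.inj (by simp) n3 (n0.trans (Eq.symm z))
      rw [z2, zero_add, ← Int.cast_abs, ← Int.cast_one, Int.cast_lt, Int.abs_lt_one_iff] at n2
      exact Prod.ext (pow_eq_zero_iff two_ne_zero |>.1 z1.symm) (by simpa [n2] using z2)

end Main

end Pool.Agent.Lib.MP_b2e238_gt
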