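import Pool.Agent.Lib.MP_b2e238_gt.All
import Pool.Agent.Lib.MP_b2e238_gt.S.Main
import Pool.Agent.Lib.MP_b2e238_gt.Z.Glue
import Pool.Agent.Lib.MP_b2e238_gt.Z.Pi
import Pool.Agent.Lib.MP_b2e238_gt.Z.Clo

/-! From the surgery on `Y × S¹` to the branched double cover of `S⁴`. -/

open scoped ContDiff Topology
open Set Metric

noncomputable section

namespace Pool.Agent.Lib.MP_b2e238_gt

section
variable {V W : Type} [NormedAddCommGroup V] [NormedSpace ℝ V] [NormedAddCommGroup W]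
  [NormedSpace ℝ W] [FiniteDimensional ℝ V] [FiniteDimensional ℝ W] {Y : Set V}
  {p : V → (ℝ × ℂ) × ℝ} {ν' : ℝ × ℂ → V} {ν : ℝ × ℂ → (ℝ × ℂ) × ℝ} {β : ℝ → ℝ}
  {ρ : (ℝ × ℂ) × ℝ → (ℝ × ℂ) × ℝ} {f : ℝ → (ℝ × ℂ) × ℝ → (ℝ × ℂ) × ℝ}

/-- The surgered manifold is a double cover of `S⁴` branched along the roll-spun knot. -/
theorem bridge {X : Set W} (hp : Br ℝ Y (Sph ℝ) (range fun t => ν (t, 0)) p) (hν' : Tube Y ν' 2)
    (hν : Tube (Sph ℝ) ν 4) (lift : ∀ t z, ‖z‖ < 2 → p (ν' (t, z)) = ν (t, z ^ 2))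
    (pole : ∀ᶠ u in 𝓝 0, ν u = nrm (u, 1)) (hβ : ContDiff ℝ ∞ β) (β0 : ∀ r ≤ 1, β r = 0)
    (β1 : ∀ r ≥ 3, β r = 1) (ρ1 : ∀ t z, ‖z‖ < 4 → ρ (ν (t, z)) = ν (t + β ‖z‖, z))
    (ρ2 : ∀ y ∉ ν '' {u | ‖u.2‖ < 4}, ρ y = y) (hf : Triv ρ f)
    (z : Surg (Y ×ˢ sphere (0 : ℂ) 1) (T0 ν') X) : ∃ π : W → (ℝ × ℂ) × ℂ, Br ℂ X (Sph ℂ)
      (closure {x | ∃ t s, s ∈ Ioo (0 : ℝ) 1 ∧ x = page t (f t (ν (s, 0)))}) π := by
  obtain ⟨Pi, h⟩ := exists_cov hp hν' hν lift pole hβ β0 β1 ρ1 ρ2 hf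
  rw [closure_spun hν pole (fun s => by simpa [β0 0 zero_le_one] using ρ1 s 0 (by simp)) hf]
  exact h.glue (hν'.tb two_pos) z
end

theorem fin_odd (s : ℤ) : Odd (6 * s + 1).natAbs ∧ ¬3 ∣ (6 * s + 1).natAbs := by
  refine ⟨Int.natAbs_odd.2 ⟨3 * s, by ring⟩, fun h => ?_⟩
  have k : (3 : ℤ) ∣ 6 * s + 1 := Int.natCast_dvd.2 h
  omega

/-- The surgery on the graph of the lifted knot with the Seifert framing is `S⁴`. -/
theorem surg_T0 (s : ℤ) {p : C3 → (ℝ × ℂ) × ℝ} {ν' : ℝ × ℂ → C3} {ν : ℝ × ℂ → (ℝ × ℂ) × ℝ}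
    (hp : Br ℝ (Bri (6 * s + 1).natAbs) (Sph ℝ) (range fun t => ν (t, 0)) p)
    (conj : ∀ a ∈ Bri (6 * s + 1).natAbs, p (star a) = p a)
    (hν' : Tube (Bri (6 * s + 1).natAbs) ν' 2) (hν : Tube (Sph ℝ) ν 4)
    (lift : ∀ t z, ‖z‖ < 2 → p (ν' (t, z)) = ν (t, z ^ 2)) {g : (ℝ × ℂ) × ℝ → ℂ}
    (hg : ContinuousOn g (Sph ℝ \ range fun t => ν (t, 0)))
    (g0 : ∀ y ∈ Sph ℝ \ range fun t => ν (t, 0), g y ≠ 0)
    (gν : ∀ t z, z ≠ 0 → ‖z‖ < 1 → g (ν (t, z)) = z) :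
    Surg (Bri (6 * s + 1).natAbs ×ˢ sphere (0 : ℂ) 1) (T0 ν') (Sph ℂ) := by
  obtain ⟨ho, h3⟩ := fin_odd s
  have hn : (6 * s + 1).natAbs ≠ 0 := fun e => by simp [e] at ho
  obtain ⟨kp, st, re⟩ := fix_core ho h3 hp conj hν' hν lift
  have off (a) (ha : a ∈ Bri (6 * s + 1).natAbs) (k : star a ≠ a) :
      p a ∈ Sph ℝ \ range fun t => ν (t, 0) := ⟨hp.contOn.2 ha, fun z => k ((re a ha).2 z)⟩
  have D : SD (6 * s + 1).natAbs ν' (g ∘ p) :=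
    ⟨ho, h3, hν', kp, st, hg.comp (hp.contOn.1.continuousOn.mono fun a ha => ha.1)
      fun a k => off a k.1 k.2, fun a ha k => g0 _ (off a ha k), fun a ha => congrArg g (conj a ha),
      fun t z z0 h => by
        rw [Function.comp, lift t z (by linarith), gν _ _ (pow_ne_zero 2 z0)]
        rw [norm_pow]; nlinarith [norm_nonneg z]⟩
  obtain ⟨L, hL⟩ := seifert D
  have m : ∀ (t : ℝ) (x : E3), ‖x‖ < 2 → ‖x.1‖ < 2 := fun t x h => (norm_fst_le x).trans_lt h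
  have sm : ContDiffOn ℝ ∞ (fun u : ℝ × E3 => ν' (u.2.2 - u.1, u.2.1)) (univ ×ˢ ball 0 2) :=
    hν'.smooth.comp (by fun_prop) fun u hu =>
      ⟨trivial, mem_ball_zero_iff.2 (m 0 _ (mem_ball_zero_iff.1 hu.2))⟩
  have c : Continuous fun t : ℝ => ν' (-t, 0) :=
    hν'.smooth.continuousOn.comp_continuous (by fun_prop) fun t => ⟨trivial, by simp⟩
  have rk : RK (6 * s + 1).natAbs (fun t => ν' (-t, 0)) 1 := by
    refine all_rk s c (fun t => ?_) (fun t t' e => ?_) (Subset.antisymm ?_ fun a ha => ?_)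
    · simpa [add_comm] using hν'.int (-t) 0 (-1)
    · obtain ⟨-, n, k⟩ := hν'.inj (by simp) (by simp) e
      exact ⟨-n, by push_cast; linarith⟩
    · rintro _ ⟨t, rfl⟩
      exact ⟨hν'.mem _ (by simp), kp.real _⟩
    · obtain ⟨t, e⟩ := (re a ha.1).1 ha.2
      have k := pre_tube hp hν' hν lift ha.1 (t := t) (z := 0) (by simp) (by simpa using e.symm)
      exact ⟨-t, by simpa [eq_comm] using k⟩
  have z := (Gq.hl rk (Hl.refl c (fun t => hν'.mem _ (by simp)) fun t => by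
    simpa [add_comm] using hν'.int (-t) 0 (-1)) (by simpa using hL.symm)).lin
    (L := (L.symm : E3 →L[ℝ] E3)) L.symm.injective
  refine (gq_iff (bri_cf hn) (bri_mf hn) (bri_rt hn) (c := fun t x => ν' (x.2 - t, x.1)) two_pos sm
    (fun t x h => hν'.mem _ (m t x h)) (fun t => funext fun x => ?_) fun t => ?_).2 ?_
  · have := hν'.int (x.2 - t) x.1 (-1)
    rw [← this]; congr 2; push_cast; ring
  · have h := (hν'.2 (-t - 1 / 2)).2.2.2.2 (-t, 0) ⟨⟨by simp, by linarith⟩, by simp⟩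
    have d : DifferentiableAt ℝ ν' (-t, 0) := (hν'.smooth.contDiffAt
      ((isOpen_univ.prod isOpen_ball).mem_nhds ⟨trivial, by simp⟩)).differentiableAt (by simp)
    have a : HasFDerivAt (fun x : E3 => (x.2 - t, x.1))
        ((ContinuousLinearMap.snd ℝ ℂ ℝ).prod (ContinuousLinearMap.fst ℝ ℂ ℝ)) 0 :=
      (hasFDerivAt_snd.sub_const t).prodMk hasFDerivAt_fst
    have b := HasFDerivAt.comp (g := ν') 0 (by simpa using d.hasFDerivAt) a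
    rw [show (fun x : E3 => ν' (x.2 - t, x.1)) = ν' ∘ fun x : E3 => (x.2 - t, x.1) from rfl, b.fderiv]
    intro x y e
    have := h.1 e
    exact Prod.ext (congrArg Prod.snd this) (congrArg Prod.fst this)
  · have e2 (A : E3 →L[ℝ] E3) : (A ∘L (L : E3 →L[ℝ] E3)) ∘L (L.symm : E3 →L[ℝ] E3) = A :=
      ContinuousLinearMap.ext fun x => by simp
    simpa only [e2, Prod.snd_zero, Prod.fst_zero, zero_sub] using z

end Pool.Agent.Lib.MP_b2e238_gt
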