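import Pool.Agent.Lib.MP_b2e238_gt.Z.Br

/-! Charts for the model of the cover near the binding. -/

open scoped ContDiff Topology
open Set Metric

noncomputable section

namespace Pool.Agent.Lib.MP_b2e238_gt

/-- Inverse stereographic projection. -/
def qbS (η : ℝ) (u : ℂ) : E3 := (1 + ‖u‖ ^ 2)⁻¹ • (2 * u, η * (1 - ‖u‖ ^ 2))

/-- Stereographic projection. -/
def qbT (η : ℝ) (o : E3) : ℂ := (1 + η * o.2)⁻¹ • o.1

variable {η : ℝ}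

theorem qbS_smooth (η : ℝ) : ContDiff ℝ ∞ (qbS η) :=
  ((contDiff_const.add sqC).inv fun u => by positivity).smul
    ((contDiff_const.mul contDiff_id).prodMk (contDiff_const.mul (contDiff_const.sub sqC)))

theorem qbS_snd (h : η ^ 2 = 1) (u : ℂ) : 1 + η * (qbS η u).2 = 2 / (1 + ‖u‖ ^ 2) := by
  have p : 0 < 1 + ‖u‖ ^ 2 := by positivity
  simp only [qbS, Prod.smul_snd, smul_eq_mul]
  field_simp
  linear_combination (1 - ‖u‖ ^ 2) * h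

theorem qb_dif (h : η ^ 2 = 1) : Dif univ {o ∈ S2 | 0 < 1 + η * o.2} (qbS η) (qbT η) := by
  refine ⟨(qbS_smooth η).contDiffOn, fun o ho => ?_, fun u _ => ⟨?_, ?_⟩, fun _ _ => trivial,
    fun u _ => ?_, fun o ho => ?_⟩
  · exact (((contDiffAt_const.add (contDiffAt_const.mul contDiffAt_snd)).inv ho.2.ne').smul
      contDiffAt_fst).contDiffWithinAt
  · have p : 0 < 1 + ‖u‖ ^ 2 := by positivity
    change ‖(1 + ‖u‖ ^ 2)⁻¹ • (2 * u)‖ ^ 2 + ((1 + ‖u‖ ^ 2)⁻¹ * (η * (1 - ‖u‖ ^ 2))) ^ 2 = 1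
    rw [norm_smul, norm_mul, Complex.norm_two, Real.norm_eq_abs, abs_of_pos (inv_pos.2 p)]
    field_simp
    linear_combination (1 - ‖u‖ ^ 2) ^ 2 * h
  · rw [qbS_snd h]; positivity
  · have p : 0 < 1 + ‖u‖ ^ 2 := by positivity
    rw [qbT, qbS_snd h]
    simp only [qbS, Prod.smul_fst, smul_smul]
    have : (2 / (1 + ‖u‖ ^ 2))⁻¹ * (1 + ‖u‖ ^ 2)⁻¹ = 1 / 2 := by field_simp
    rw [this, Complex.real_smul]; push_cast; ring
  · have e : ‖o.1‖ ^ 2 + o.2 ^ 2 = 1 := ho.1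
    have p := ho.2
    have n : 1 + ‖qbT η o‖ ^ 2 = 2 / (1 + η * o.2) := by
      rw [qbT, norm_smul, Real.norm_eq_abs, abs_of_pos (inv_pos.2 p)]
      field_simp
      linear_combination e + o.2 ^ 2 * h
    have n' : 1 - ‖qbT η o‖ ^ 2 = 2 - 2 / (1 + η * o.2) := by linarith
    rw [qbS, n, n']
    refine Prod.ext ?_ ?_
    · have : (2 / (1 + η * o.2))⁻¹ * (2 * (1 + η * o.2)⁻¹) = 1 := by field_simp
      rw [Prod.smul_fst, qbT, ← Complex.ofReal_ofNat, ← Complex.real_smul, smul_smul, smul_smul,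
        mul_assoc, this, one_smul]
    · simp only [Prod.smul_snd, smul_eq_mul]
      field_simp
      linear_combination o.2 * h

theorem bq_qbS (h : η ^ 2 = 1) (u : ℂ) : bq (qbS η u) = qbS η (u ^ 2) := by
  have p : 0 < 1 + ‖u‖ ^ 2 := by positivity
  have p' : 0 < 1 + (‖u‖ ^ 2) ^ 2 := by positivity
  have s : 1 + (qbS η u).2 ^ 2 = 2 * (1 + (‖u‖ ^ 2) ^ 2) / (1 + ‖u‖ ^ 2) ^ 2 := by
    simp only [qbS, Prod.smul_snd, smul_eq_mul]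
    field_simp
    linear_combination (1 - ‖u‖ ^ 2) ^ 2 * h
  rw [bq, s]
  simp only [qbS, norm_pow]
  refine Prod.ext ?_ ?_
  · have : (2 * (1 + (‖u‖ ^ 2) ^ 2) / (1 + ‖u‖ ^ 2) ^ 2)⁻¹ * ((1 + ‖u‖ ^ 2)⁻¹ ^ 2 * 2) =
        (1 + (‖u‖ ^ 2) ^ 2)⁻¹ := by field_simp
    rw [← this]
    simp only [Prod.smul_fst, Complex.real_smul]
    push_cast; ring
  · simp only [Prod.smul_snd, smul_eq_mul]
    field_simp; ring

theorem qb_opn (η : ℝ) : Opn (univ ×ˢ {o ∈ S2 | 0 < 1 + η * o.2}) ((univ : Set ℂ) ×ˢ S2) :=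
  (Opn.refl _).prod (opn_iff.2 ⟨{o | 0 < 1 + η * o.2}, isOpen_lt continuous_const (by fun_prop), rfl⟩)

theorem qb_par (h : η ^ 2 = 1) : Par ((univ : Set ℂ) ×ˢ S2) (Prod.map id (qbS η)) univ := by
  have d := (Dif.refl (univ : Set ℂ)).prod (qb_dif h)
  rw [univ_prod_univ] at d
  exact d.to_par isOpen_univ (qb_opn η)

/-- Rescaling of the normal coordinate. -/
theorem qb_scale {c : ℝ} (hc : 0 < c) : Dif ((univ : Set ℂ) ×ˢ S2) (univ ×ˢ S2)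
    (fun q => ((c * (1 + q.2.2 ^ 2))⁻¹ • q.1, q.2)) fun q => ((c * (1 + q.2.2 ^ 2)) • q.1, q.2) := by
  have s : ContDiff ℝ ∞ fun q : ℂ × E3 => c * (1 + q.2.2 ^ 2) := by fun_prop
  have p : ∀ q : ℂ × E3, c * (1 + q.2.2 ^ 2) ≠ 0 := fun q => by positivity
  exact ⟨(((s.inv p).smul contDiff_fst).prodMk contDiff_snd).contDiffOn,
    ((s.smul contDiff_fst).prodMk contDiff_snd).contDiffOn, fun _ k => ⟨trivial, k.2⟩,
    fun _ k => ⟨trivial, k.2⟩, fun q _ => Prod.ext (smul_inv_smul₀ (p q) _) rfl,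
    fun q _ => Prod.ext (inv_smul_smul₀ (p q) _) rfl⟩

theorem Q1_brAt {c : ℝ} (hc : 0 < c) (w : ℂ) {o : E3} (ho : o ∈ S2) :
    BrAt ℂ (univ ×ˢ S2) (univ ×ˢ S2) {q : ℂ × E3 | q.2.1 = 0} (Q1 c) (w, o) := by
  obtain ⟨η, h, k⟩ : ∃ η : ℝ, η ^ 2 = 1 ∧ 0 < 1 + η * o.2 := by
    rcases le_total 0 o.2 with k | k
    · exact ⟨1, by simp, by linarith⟩
    · exact ⟨-1, by simp, by linarith⟩
  have d := qb_scale hc
  refine ⟨2, _, _, univ, univ, .inr rfl,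
    d.par (.refl _) (.refl _) (qb_par h) (qb_par h).2.2.2.1, qb_par h,
    ⟨((c * (1 + o.2 ^ 2)) • w, qbT η o), trivial, ?_⟩, fun u _ => ⟨trivial, ?_, ?_⟩⟩
  · have e := (qb_dif h).fg o ⟨ho, k⟩
    simp only [Function.comp_apply, Prod.map, id, e]
    exact d.fg (w, o) ⟨trivial, ho⟩
  · refine Prod.ext (smul_inv_smul₀ (by positivity) _) (bq_qbS h u.2)
  · have p : (1 + ‖u.2‖ ^ 2)⁻¹ ≠ 0 := by positivity
    change (1 + ‖u.2‖ ^ 2)⁻¹ • (2 * u.2) = 0 ↔ _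
    rw [smul_eq_zero_iff_right p]; simp

theorem Qm_brAt {c : ℝ} (hc : 0 < c) (w : ℂ) {o : E3} (ho : o ∈ S2) :
    BrAt ℂ (univ ×ˢ S2) (Sph ℂ) {q : ℂ × E3 | q.2.1 = 0} (Qm c) (w, o) := by
  have o1 : Opn {x ∈ Sph ℂ | ‖x.2‖ < 1} (Sph ℂ) :=
    opn_iff.2 ⟨{x | ‖x.2‖ < 1}, isOpen_lt (by fun_prop) continuous_const, rfl⟩
  have o2 : Opn (ball (0 : ℂ) 1 ×ˢ S2) (univ ×ˢ S2) := (opn_univ.2 isOpen_ball).prod (.refl _)
  have d := (dk_dif.prod (Dif.refl S2)).trans (bind_dif.mono o2.1)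
  have m : ∀ x ∈ S2, bq x ∈ S2 := fun x hx => by
    obtain ⟨η, h, k⟩ : ∃ η : ℝ, η ^ 2 = 1 ∧ 0 < 1 + η * x.2 := by
      rcases le_total 0 x.2 with k | k
      · exact ⟨1, by simp, by linarith⟩
      · exact ⟨-1, by simp, by linarith⟩
    rw [← (qb_dif h).fg x ⟨hx, k⟩, bq_qbS h]
    exact ((qb_dif h).mF trivial).1
  exact (Q1_brAt hc w ho).map (Dif.refl _) (.refl _) (.refl _) d (.refl _)
    ((bind_dif.opn o2).trans o1) ⟨trivial, ho⟩ (fun x hx => ⟨trivial, m _ hx.2⟩)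
    fun _ _ => ⟨rfl, Iff.rfl⟩

end Pool.Agent.Lib.MP_b2e238_gt
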